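import Pool.Agent.Q20.SI.Row1
import Pool.Agent.Q20.SI.Fou

/-!
# Stark's conjecture up to powers for abelian extensions of fields with one complex place
-/

set_option autoImplicit false
set_option linter.unusedSectionVars false

namespace Pool.Agent.Q280.SI

open NumberField IsDedekindDomain Pool.Agent.Q20.RS Pool.Agent.Q20.SI
open Pool.Agent.Q20.RS.RL (Twister Dihedral)

/-- **The data of the question**: an ideal `𝔣 ≠ 0` of the field `F` with one complex place, `𝔣 ≠ (1)` or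
there are at least two real places, an abelian extension `K` of `F` unramified at the primes which do not
divide `𝔣` (for example the narrow ray class field), and a place `v` of `K` above the complex place of `F` -/
structure AtrData (F K : Type) [Field F] [NumberField F] [Field K] [NumberField K]
    [Algebra F K] : Type where
  comm : ∀ a b : K ≃ₐ[F] K, a * b = b * a
  /-- the ideal -/
  m : Ideal (𝓞 F)
  ne_zero : m ≠ 0
  big : m ≠ ⊤ ∨ 2 ≤ InfinitePlace.nrRealPlaces F
  ram : ∀ p : HeightOneSpectrum (𝓞 F), ¬ p.asIdeal ∣ m → Unrm K p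
  /-- the place -/
  v : InfinitePlace K
  cx : (v.comap (algebraMap F K)).IsComplex

section
variable {F K : Type} [Field F] [NumberField F] [Field K] [NumberField K] [Algebra F K]
  (D : AtrData F K)

/-- the primes dividing `𝔣` -/
noncomputable def AtrData.primes : Finset (HeightOneSpectrum (𝓞 F)) :=
  (Ideal.finite_factors D.ne_zero).toFinset

/-- `χ` is not trivial on the decomposition groups of the places above the real places of `F` and of the
primes above `𝔣` (`L_𝔣(s, χ)` has a simple zero at `s = 0`) -/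
def AtrData.Exact (χ : (K ≃ₐ[F] K) →* ℂˣ) : Prop :=
  (∀ w : InfinitePlace K, (w.comap (algebraMap F K)).IsReal →
    ∃ c : K ≃ₐ[F] K, c • w = w ∧ χ c ≠ 1) ∧
  ∀ P : HeightOneSpectrum (𝓞 K), (P.under (𝓞 F)).asIdeal ∣ D.m →
    ∃ g : K ≃ₐ[F] K, pra g P = P ∧ χ g ≠ 1

open scoped Classical in
/-- `L_𝔣'(0, χ)`: the leading coefficient if the zero is simple, and `0` otherwise -/
noncomputable def AtrData.deriv (χ : (K ≃ₐ[F] K) →* ℂˣ) : ℂ :=
  if D.Exact χ then lead D.primes χ else 0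

/-- `ζ_𝔣'(g, 0)`, for the partial zeta function `ζ_𝔣(g, s) = |G|⁻¹ ∑_χ χ(g)⁻¹ L_𝔣(s, χ)` of `g` -/
noncomputable def AtrData.zeta (g : K ≃ₐ[F] K) : ℂ :=
  (Fintype.card (K ≃ₐ[F] K) : ℂ)⁻¹ * ∑ χ : (K ≃ₐ[F] K) →* ℂˣ, (cf χ g)⁻¹ * D.deriv χ

/-- **Q1 up to powers**: there are `n ≥ 1` and a unit `u` of `K` with `n ζ_𝔣'(g, 0) = - log |g u|_v²` for all
`g` and `|φ(u)| = 1` for all embeddings `φ` of `K` in `ℂ` which are real on `F`. (For `u^e`, `e` the number of
roots of unity of `K`, in place of `u`, `e n` in place of `n`, `K((u^e)^{1/e}) = K` is abelian over `F`.) -/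
def AtrData.Q1 : Prop :=
  ∃ (n : ℕ) (u : (𝓞 K)ˣ), 0 < n ∧
    (∀ g : K ≃ₐ[F] K, (n : ℂ) * D.zeta g = -((2 * Real.log (D.v (g ((u : 𝓞 K) : K))) : ℝ) : ℂ)) ∧
    ∀ φ : K →+* ℂ, ComplexEmbedding.IsReal (φ.comp (algebraMap F K)) → ‖φ ((u : 𝓞 K) : K)‖ = 1

/-- **The relation for `χ`**: for the characters `Ψ` of `Gal(F̄/F)` given by `χ` and an embedding of `K` in
`F̄` there are a quadratic character `η`, trivial on the decomposition groups of the primes at which
`Ψ` is ramified, such that `Ψη` is `1` at all complex conjugations, and fields `F ⊆ F₁, F₂ ⊆ F₃` for which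
the restrictions of `Ψ` are unramified at all finite places, `Ψ + Ind Ψ|F₃ = Ψη + Ind Ψ|F₁ + Ind Ψ|F₂`, and
`d_σ(Ψη) d_σ(Ψ|F₁) d_σ(Ψ|F₂) = d_σ(Ψ|F₃)` for all automorphisms `σ` of `ℂ` -/
def RelE (χ : (K ≃ₐ[F] K) →* ℂˣ) : Prop :=
  ∀ (j : K →ₐ[F] AlgebraicClosure F) (Ψ : RL.Lin (base F)),
    (∀ (y : K ≃ₐ[F] K) (g : (base F).fixingSubgroup),
      (∀ x : K, j (y x) = (g : Gal(AlgebraicClosure F/F)) (j x)) → cf χ y = Ψ.fn g) →
    ∃ η : RL.Lin (base F), Twister Ψ η ∧ (Ψ.mul η).parity 1 ∧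
      ∃ d : Dihedral Ψ η, ∀ σ : ℂ ≃+* ℂ, Balanced d σ

end

end Pool.Agent.Q280.SI
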