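import Pool.Agent.Q280.SI.Atrp

/-!
# Stark's conjecture up to powers for abelian extensions of fields with one complex place: theorems
-/

set_option autoImplicit false
set_option linter.unusedSectionVars false

namespace Pool.Agent.Q280.SI

open NumberField IsDedekindDomain Pool.Agent.Q20.RS Pool.Agent.Q20.SI
open Pool.Agent.Q20.RS.RL (Twister Dihedral StarkEq Lin.smooth Lin.parity)
open Pool.Agent.Q20.TR (bt)

section
variable {F K : Type} [Field F] [NumberField F] [Field K] [NumberField K] [Algebra F K]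
variable (D : AtrData F K)

/-- a complex conjugation at which the character is not trivial -/
theorem atr_cc (h1 : 1 ≤ InfinitePlace.nrRealPlaces F) {χ : (K ≃ₐ[F] K) →* ℂˣ} (hex : D.Exact χ)
    (j : K →ₐ[F] AlgebraicClosure F) {Ψ : RL.Lin (base F)} (hΨ : Giv j Ψ χ) :
    ∃ t : GalF (base F), CCj (t : Gal(AlgebraicClosure F/F)) ∧ Ψ.fn t ≠ 1 := by
  classical
  have h2 : 0 < Fintype.card {w : InfinitePlace F // w.IsReal} := h1
  obtain ⟨v, hv⟩ := Fintype.card_pos_iff.1 h2
  let e : (base F) ≃ₐ[F] F := IntermediateField.botEquiv F (AlgebraicClosure F)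
  obtain ⟨t, ⟨ι, hι⟩, ht⟩ := Pool.Agent.Q246.BI.real_cc (base F)
    ⟨(InfinitePlace.embedding_of_isReal hv).comp (e : base F →+* F)⟩
  have htF : t ∈ (base F).fixingSubgroup := mem_bt t
  let φ : K →+* ℂ := ι.comp (j : K →+* AlgebraicClosure F)
  have hw : ((InfinitePlace.mk φ).comap (algebraMap F K)).IsReal := by
    rw [InfinitePlace.comap_mk, InfinitePlace.isReal_mk_iff, ComplexEmbedding.isReal_iff]
    ext x
    change (starRingEnd ℂ) (ι (j (algebraMap F K x))) = ι (j (algebraMap F K x))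
    rw [← hι, AlgHom.commutes, AlgEquiv.commutes]
  obtain ⟨c, hc, hc1⟩ := hex.1 _ hw
  have h3 : InfinitePlace.mk (φ.comp (c.symm : K →+* K)) = InfinitePlace.mk φ := hc
  have h4 : ∀ x, j (c x) = t (j x) := by
    rcases InfinitePlace.mk_eq_iff.1 h3 with h4 | h4
    · exfalso
      have h5 : ∀ x, c.symm x = x := fun x => φ.injective (DFunLike.congr_fun h4 x)
      have h6 : c = 1 := by
        ext x
        have h7 := h5 (c x)
        rw [AlgEquiv.symm_apply_apply] at h7
        exact h7.symm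
      rw [h6, map_one] at hc1
      exact hc1 rfl
    · intro x
      apply ι.injective
      rw [hι]
      have h5 := DFunLike.congr_fun h4 (c x)
      change (starRingEnd ℂ) (ι (j (c.symm (c x)))) = ι (j (c x)) at h5
      rw [AlgEquiv.symm_apply_apply] at h5
      exact h5.symm
  refine ⟨⟨t, htF⟩, ⟨ι, hι⟩, fun h5 => hc1 ?_⟩
  have h6 := hΨ c ⟨t, htF⟩ h4
  rw [h5] at h6
  exact Units.ext h6

theorem relE_iff [IsGalois F K] (h1 : 1 ≤ InfinitePlace.nrRealPlaces F)
    {χ : (K ≃ₐ[F] K) →* ℂˣ} (hex : D.Exact χ) : RelE χ ↔ St χ := by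
  constructor
  · intro h j Ψ hΨ σ
    obtain ⟨η, hη, -, d, hd⟩ := h j Ψ hΨ
    exact (starkEq_iff_balanced fin_base (smooth_of_infl (ψ := χ) j hΨ) hη.smooth d σ).2 (hd σ)
  · intro h j Ψ hΨ
    have hF : FinExt (base F) := fin_base
    have hs : Ψ.smooth := smooth_of_infl (ψ := χ) j hΨ
    obtain ⟨η, hη, ho⟩ := RL.exists_odd hF hs (s := 1) (Or.inl rfl)
    refine ⟨η, hη, ho, ?_⟩
    obtain ⟨t, ht, ht1⟩ := atr_cc D h1 hex j hΨ
    have hne : ∃ g, η.fn g ≠ 1 := by
      refine ⟨t, fun h3 => ht1 ?_⟩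
      have h4 : (Ψ.mul η).fn t = Ψ.fn t * η.fn t := rfl
      rw [ho t ht, h3, mul_one] at h4
      exact h4.symm
    obtain ⟨d⟩ := RL.exists_dihedral hF hs hη hne
    exact ⟨d, fun σ => (starkEq_iff_balanced hF hs hη.smooth d σ).1 (h j Ψ hΨ σ)⟩

/-- **The criterion** -/
theorem atr_rel [IsGalois F K] (h1 : 1 ≤ InfinitePlace.nrRealPlaces F)
    (hC : InfinitePlace.nrComplexPlaces F = 1) :
    D.Q1 ↔ ∀ χ : (K ≃ₐ[F] K) →* ℂˣ, D.Exact χ → RelE χ := by
  rw [atr_iff D h1 hC]
  exact forall_congr' fun χ => forall_congr' fun hex => (relE_iff D h1 hex).symm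

end

section
variable {F : Type} [Field F] [NumberField F]

/-- the minimal case from the rank one conjecture -/
theorem minimal_of_atr (h1 : 1 ≤ InfinitePlace.nrRealPlaces F)
    (hC : InfinitePlace.nrComplexPlaces F = 1) (hU : UnramifiedCase F)
    (hA : ∀ (K : Type) [Field K] [NumberField K] [Algebra F K] [IsGalois F K] (D : AtrData F K),
      D.Q1) : MinimalCase F := by
  classical
  intro L _ _ _ _ D hcyc hr
  rw [hC] at hr
  by_cases hS : D.S = ∅ ∧ InfinitePlace.nrRealPlaces F < 2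
  · refine hU F L D hcyc fun p => ?_
    by_contra h
    have h2 := D.ram p h
    rw [hS.1] at h2
    exact absurd h2 (Finset.notMem_empty p)
  -- the ideal
  let m : Ideal (𝓞 F) := ∏ p ∈ D.S, p.asIdeal
  have hm0 : m ≠ 0 := Finset.prod_ne_zero_iff.2 fun p _ => p.ne_bot
  have hdvd : ∀ p : HeightOneSpectrum (𝓞 F), p.asIdeal ∣ m ↔ p ∈ D.S := by
    intro p
    constructor
    · intro h
      obtain ⟨q, hq, hpq⟩ := (Prime.dvd_finsetProd_iff p.prime _).1 h
      have h2 : q.asIdeal ≤ p.asIdeal := Ideal.dvd_iff_le.1 hpq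
      have h3 : q = p := HeightOneSpectrum.ext (q.isMaximal.eq_of_le p.isPrime.ne_top h2)
      exact h3 ▸ hq
    · intro h
      exact Finset.dvd_prod_of_mem _ h
  have hbig : m ≠ ⊤ ∨ 2 ≤ InfinitePlace.nrRealPlaces F := by
    by_cases h2 : 2 ≤ InfinitePlace.nrRealPlaces F
    · exact Or.inr h2
    · left
      have h3 : D.S ≠ ∅ := fun h => hS ⟨h, not_le.1 h2⟩
      obtain ⟨p, hp⟩ := Finset.nonempty_iff_ne_empty.2 h3
      intro h4
      have h5 : m ≤ p.asIdeal := Ideal.dvd_iff_le.1 ((hdvd p).2 hp)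
      rw [h4, top_le_iff] at h5
      exact p.isPrime.ne_top h5
  -- the complex place
  have h2 : 0 < Fintype.card {w : InfinitePlace F // w.IsComplex} :=
    lt_of_lt_of_eq Nat.one_pos hC.symm
  obtain ⟨v₀, hv₀⟩ := Fintype.card_pos_iff.1 h2
  obtain ⟨v, hv⟩ := InfinitePlace.comap_surjective (k := F) (K := L) v₀
  change v.comap (algebraMap F L) = v₀ at hv
  let D' : AtrData F L := ⟨D.comm, m, hm0, hbig, fun p hp => by
    by_contra h
    exact hp ((hdvd p).2 (D.ram p h)), v, hv ▸ hv₀⟩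
  have hsplit : ∀ g : L ≃ₐ[F] L, pact g (.inr v : Pl L) = .inr v → g = 1 := fun g hg =>
    atr_split D' g (Sum.inr_injective hg)
  obtain ⟨i₀, g₀, hi₀⟩ := D.all (.inr v) trivial hsplit
  have huniq : ∀ i : Fin D.r, i = i₀ := by
    intro i
    have h3 := i.2
    have h4 := i₀.2
    exact Fin.ext (by omega)
  have horb : ∀ (i : Fin D.r) (g : L ≃ₐ[F] L), ∃ h : L ≃ₐ[F] L,
      pact h (.inr v : Pl L) = pact g (D.w i) := by
    intro i g
    rw [huniq i]
    refine ⟨g * g₀⁻¹, ?_⟩
    rw [← hi₀, ← pact_mul, inv_mul_cancel_right]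
  refine q1_of_good D fun χ hex => ?_
  by_cases hχ : ∀ g, χ g = 1
  · exact good_triv orb exi Pool.Agent.Q123.SI.lfn Pool.Agent.Q299.SI.CN0.cn0
      Pool.Agent.Q223.SI.rga Pool.Agent.Q223.SI.rgb Pool.Agent.Q176.SI.rgt D hex hχ
  push Not at hχ
  have hex0 := hex
  obtain ⟨-, hex⟩ | ⟨hex, -⟩ := hex
  · refine good_of_st D.comm D.ram hχ D.w (exact_reps D hex0 hχ)
      ((atr_iff D' h1 hC).1 (hA L D') χ ⟨fun w hw => ?_, fun P hP => ?_⟩)
    · by_contra hn
      push Not at hn
      obtain ⟨i, g, hg⟩ := hex (.inr w) trivial fun c hc => hn c (Sum.inr_injective hc)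
      obtain ⟨h, hh⟩ := horb i g
      rw [hg] at hh
      have h3 : h • v = w := Sum.inr_injective hh
      rw [← h3, comap_act', hv] at hw
      exact InfinitePlace.not_isReal_iff_isComplex.2 hv₀ hw
    · by_contra hn
      push Not at hn
      obtain ⟨i, g, hg⟩ := hex (.inl P) (mem_abv.2 ((hdvd _).1 hP))
        fun c hc => hn c (Sum.inl_injective hc)
      obtain ⟨h, hh⟩ := horb i g
      rw [hg] at hh
      exact Sum.inr_ne_inl hh
  · obtain ⟨g, hg⟩ := hχ
    exact absurd (hex g) hg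

/-- **Rank one and all ranks** -/
theorem atr_all (h1 : 1 ≤ InfinitePlace.nrRealPlaces F)
    (hC : InfinitePlace.nrComplexPlaces F = 1) (hU : UnramifiedCase F) :
    (∀ (K : Type) [Field K] [NumberField K] [Algebra F K] [IsGalois F K] (D : AtrData F K),
      D.Q1) ↔
    ∀ (K : Type) [Field K] [NumberField K] [Algebra F K] [IsGalois F K] (D : OrderData F K),
      D.Q1 := by
  constructor
  · intro h K _ _ _ _ D
    exact order_all hU (minimal_of_atr h1 hC hU h) D
  · intro h K _ _ _ _ D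
    have hM : MinimalCase F := fun L _ _ _ _ D _ _ => h L D
    exact (atr_iff D h1 hC).2 fun χ _ => st_all hU hM χ

end

end Pool.Agent.Q280.SI
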