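import Pool.Agent.Q280.SI.Ray

/-!
# Stark's conjecture up to powers for abelian extensions of a real quadratic field: proofs
-/

set_option autoImplicit false
set_option linter.unusedSectionVars false

namespace Pool.Agent.Q280.SI

open NumberField IsDedekindDomain Pool.Agent.Q20.RS Pool.Agent.Q20.SI
open Pool.Agent.Q20.RS.RL (Twister Dihedral StarkEq)

section
variable {H : Type} [Field H] [NumberField H]

theorem val_one {P : HeightOneSpectrum (𝓞 H)} {x : H} :
    NumberField.HeightOneSpectrum.adicAbv H P x = 1 ↔ P.valuation H x = 1 := by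
  have hNP : (1 : NNReal) < (Ideal.absNorm P.asIdeal : NNReal) := by
    exact_mod_cast NumberField.HeightOneSpectrum.one_lt_absNorm P
  rw [NumberField.HeightOneSpectrum.adicAbv_def, ← NNReal.coe_one, NNReal.coe_inj]
  exact WithZeroMulInt.toNNReal_eq_one_iff _ (zero_lt_one.trans hNP).ne' hNP.ne'

theorem unit_abv (u : (𝓞 H)ˣ) (P : HeightOneSpectrum (𝓞 H)) :
    NumberField.HeightOneSpectrum.adicAbv H P ((u : 𝓞 H) : H) = 1 := by
  rw [val_one]
  change P.valuation H (algebraMap (𝓞 H) H (u : 𝓞 H)) = 1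
  rw [HeightOneSpectrum.valuation_of_algebraMap]
  refine (HeightOneSpectrum.intValuation_eq_one_iff).2 fun h => ?_
  exact P.isPrime.ne_top (Ideal.eq_top_of_isUnit_mem _ h u.isUnit)

theorem exists_unit {x : H} (hx : x ≠ 0)
    (h : ∀ P : HeightOneSpectrum (𝓞 H), NumberField.HeightOneSpectrum.adicAbv H P x = 1) :
    ∃ u : (𝓞 H)ˣ, ((u : 𝓞 H) : H) = x := by
  obtain ⟨a, ha⟩ := HeightOneSpectrum.mem_integers_of_valuation_le_one H x
    fun P => (val_one.1 (h P)).le
  obtain ⟨b, hb⟩ := HeightOneSpectrum.mem_integers_of_valuation_le_one H x⁻¹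
    fun P => by rw [map_inv₀, val_one.1 (h P), inv_one]
  have h1 : a * b = 1 := by
    refine RingOfIntegers.ext ?_
    change algebraMap (𝓞 H) H (a * b) = algebraMap (𝓞 H) H 1
    rw [map_mul, ha, hb, map_one, mul_inv_cancel₀ hx]
  exact ⟨⟨a, b, h1, by rw [mul_comm, h1]⟩, ha⟩

theorem coe_unit_ne (u : (𝓞 H)ˣ) : ((u : 𝓞 H) : H) ≠ 0 := by
  intro h
  exact u.ne_zero (RingOfIntegers.ext (h.trans (map_zero (algebraMap (𝓞 H) H)).symm))

theorem coe_sq (u : (𝓞 H)ˣ) : (((u ^ 2 : (𝓞 H)ˣ) : 𝓞 H) : H) = ((u : 𝓞 H) : H) ^ 2 := by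
  rw [Units.val_pow_eq_pow_val]
  exact map_pow (algebraMap (𝓞 H) H) _ _

end

section
variable {F H : Type} [Field F] [NumberField F] [Field H] [NumberField H] [Algebra F H]
  (D : RayData F H)

theorem mem_primes {p : HeightOneSpectrum (𝓞 F)} : p ∈ D.primes ↔ p.asIdeal ∣ D.m :=
  (Ideal.finite_factors D.ne_zero).mem_toFinset

theorem conj_emb : ComplexEmbedding.conjugate D.emb = D.emb := by
  ext x
  exact Complex.conj_ofReal _

theorem mk_comp_emb {φ : H →+* ℂ} {L : Type} [Field L] (f f' : L →+* H)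
    (h : InfinitePlace.mk (φ.comp f) = InfinitePlace.mk (D.emb.comp f')) :
    φ.comp f = D.emb.comp f' := by
  rcases InfinitePlace.mk_eq_iff.1 h with h2 | h2
  · exact h2
  · ext x
    have h3 := DFunLike.congr_fun h2 x
    have h4 : (starRingEnd ℂ) (φ (f x)) = D.emb (f' x) := h3
    have h5 : (starRingEnd ℂ) (D.emb (f' x)) = D.emb (f' x) := Complex.conj_ofReal _
    rw [← h4, Complex.conj_conj] at h5
    exact h5.trans h4

theorem place_split (g : H ≃ₐ[F] H) (h : g • D.place = D.place) : g = 1 := by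
  have h2 : D.emb.comp (g.symm : H →+* H) = D.emb.comp (RingHom.id H) :=
    mk_comp_emb D _ _ h
  have h3 : ∀ x, g.symm x = x := fun x => D.emb.injective (DFunLike.congr_fun h2 x)
  ext x
  have h4 := h3 (g x)
  rw [AlgEquiv.symm_apply_apply] at h4
  exact h4.symm

theorem place_real : D.place.IsReal := by
  unfold RayData.place
  rw [InfinitePlace.isReal_mk_iff]
  exact conj_emb D

theorem exists_prime [IsGalois F H] : ∃ P : HeightOneSpectrum (𝓞 H), P.under (𝓞 F) ∈ D.primes := by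
  obtain ⟨I, hI, hle⟩ := Ideal.exists_le_maximal D.m D.ne_top
  have hb : I ≠ ⊥ := by
    rintro rfl
    exact D.ne_zero (le_bot_iff.1 hle)
  let p : HeightOneSpectrum (𝓞 F) := ⟨I, hI.isPrime, hb⟩
  obtain ⟨P, hP⟩ := (orb F F H).1 (.inl p)
  rcases P with P | P
  · have h4 : P.under (𝓞 F) = p := Sum.inl_injective hP
    exact ⟨P, h4 ▸ (mem_primes D).2 (Ideal.dvd_iff_le.2 hle)⟩
  · exact absurd hP (by simp [dn])

/-- the data of rank one -/
noncomputable def toRank [IsGalois F H] : RankOneData F H where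
  comm := D.comm
  S := D.primes
  ram := fun p hp => by
    by_contra h
    exact hp (D.ram p fun h1 => h ((mem_primes D).2 h1))
  v := .inr D.place
  mem := trivial
  split := fun g hg => place_split D g (Sum.inr_injective hg)
  more := by
    obtain ⟨P, hP⟩ := exists_prime D
    exact ⟨.inl P, mem_abv.2 hP, fun g h => Sum.inr_ne_inl h⟩

theorem comap_act [IsGalois F H] (g : H ≃ₐ[F] H) (w : InfinitePlace H) :
    (g • w).comap (algebraMap F H) = w.comap (algebraMap F H) :=
  (InfinitePlace.mem_orbit_iff.1 ⟨g, rfl⟩).symm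

theorem exists_other (hF : Module.finrank ℚ F = 2) [IsGalois F H] :
    ∃ w : InfinitePlace H, w.comap (algebraMap F H) ≠ D.place.comap (algebraMap F H) := by
  classical
  by_contra hn
  push Not at hn
  have h1 : ∀ v : InfinitePlace F, v = D.place.comap (algebraMap F H) := by
    intro v
    obtain ⟨w, hw⟩ := InfinitePlace.comap_surjective (k := F) (K := H) v
    rw [← hw]
    exact hn w
  have h2 : (D.place.comap (algebraMap F H)).IsReal := (place_real D).comap _
  have h3 : InfinitePlace.nrComplexPlaces F = 0 := by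
    unfold InfinitePlace.nrComplexPlaces
    rw [Fintype.card_eq_zero_iff]
    exact ⟨fun v => InfinitePlace.not_isReal_iff_isComplex.2 v.2 (h1 v.1 ▸ h2)⟩
  have h4 : InfinitePlace.nrRealPlaces F ≤ 1 := by
    unfold InfinitePlace.nrRealPlaces
    rw [Fintype.card_le_one_iff]
    intro a b
    exact Subtype.ext ((h1 a.1).trans (h1 b.1).symm)
  have h5 := InfinitePlace.card_add_two_mul_card_eq_rank F
  omega

theorem inT_inl [IsGalois F H] {P : HeightOneSpectrum (𝓞 H)} (hP : P.under (𝓞 F) ∈ D.primes) :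
    (toRank D).InT (.inl P) :=
  ⟨mem_abv.2 hP, fun _ h => Sum.inr_ne_inl h⟩

theorem inT_inr [IsGalois F H] {w : InfinitePlace H}
    (hw : w.comap (algebraMap F H) ≠ D.place.comap (algebraMap F H)) :
    (toRank D).InT (.inr w) := by
  refine ⟨trivial, fun g h => hw ?_⟩
  rw [← Sum.inr_injective h]
  exact comap_act g D.place

theorem rank_exact (hF : Module.finrank ℚ F = 2) [IsGalois F H] (χ : (H ≃ₐ[F] H) →* ℂˣ) :
    (toRank D).Exact χ ↔ D.Exact χ := by
  constructor
  · rintro (⟨-, h⟩ | ⟨-, w₀, h⟩)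
    · refine ⟨fun w hw => ?_, fun P hP => ?_⟩
      · by_contra hn
        push Not at hn
        obtain ⟨g, hg⟩ := h (.inr w) trivial fun c hc => hn c (Sum.inr_injective hc)
        exact hw (by rw [← Sum.inr_injective hg]; exact comap_act g D.place)
      · by_contra hn
        push Not at hn
        obtain ⟨g, hg⟩ := h (.inl P) (mem_abv.2 ((mem_primes D).2 hP))
          fun c hc => hn c (Sum.inl_injective hc)
        exact Sum.inr_ne_inl hg
    · exfalso
      obtain ⟨P, hP⟩ := exists_prime D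
      obtain ⟨w, hw⟩ := exists_other D hF
      obtain ⟨g₁, h1⟩ := (h (.inl P) (mem_abv.2 hP)).resolve_right
        fun ⟨g, hg⟩ => Sum.inr_ne_inl hg
      obtain ⟨g₂, h2⟩ := (h (.inr w) trivial).resolve_right
        fun ⟨g, hg⟩ => (inT_inr D hw).2 g hg
      rcases w₀ with Q | w'
      · exact Sum.inl_ne_inr h2
      · exact Sum.inr_ne_inl h1
  · rintro ⟨h1, h2⟩
    refine Or.inl ⟨?_, fun w hw ht => ?_⟩
    · obtain ⟨P, hP⟩ := exists_prime D
      obtain ⟨g, -, hg⟩ := h2 P ((mem_primes D).1 hP)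
      exact ⟨g, hg⟩
    · rcases w with P | w
      · obtain ⟨g, hg, hg1⟩ := h2 P ((mem_primes D).1 (mem_abv.1 hw))
        exact absurd (ht g (congrArg Sum.inl hg)) hg1
      · have h3 : w.comap (algebraMap F H) = D.place.comap (algebraMap F H) := by
          by_contra h4
          obtain ⟨c, hc, hc1⟩ := h1 w h4
          exact hc1 (ht c (congrArg Sum.inr hc))
        obtain ⟨g, hg⟩ := InfinitePlace.exists_smul_eq_of_comap_eq (k := F) h3.symm
        exact ⟨g, congrArg Sum.inr hg⟩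

theorem rank_zeta (hF : Module.finrank ℚ F = 2) [IsGalois F H] (g : H ≃ₐ[F] H) :
    (toRank D).zeta g = D.zeta g := by
  classical
  unfold RankOneData.zeta RayData.zeta
  congr 1
  refine Finset.sum_congr rfl fun χ _ => ?_
  congr 1
  unfold RankOneData.deriv RayData.deriv
  exact if_congr (rank_exact D hF χ) rfl rfl

theorem logv_place (x : H) : logv x (.inr D.place) = Real.log (D.i x) := by
  change (D.place.mult : ℝ) * Real.log (D.place x) = _
  rw [InfinitePlace.mult, if_pos (place_real D), Nat.cast_one, one_mul]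
  change Real.log ‖D.emb x‖ = _
  have h1 : ‖D.emb x‖ = |D.i x| := Complex.norm_real _
  rw [h1, Real.log_abs]

theorem comap_ne {φ : H →+* ℂ}
    (hφ : φ.comp (algebraMap F H) ≠ D.emb.comp (algebraMap F H)) :
    (InfinitePlace.mk φ).comap (algebraMap F H) ≠ D.place.comap (algebraMap F H) :=
  fun h => hφ (mk_comp_emb D _ _ h)

theorem sq_of_rank (hF : Module.finrank ℚ F = 2) [IsGalois F H] (h : (toRank D).Q1) :
    D.Q1Sq := by
  obtain ⟨m, x, hm, ⟨hunt, hT, -⟩, hQ⟩ := h
  obtain ⟨P₀, hP₀⟩ := exists_prime D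
  obtain ⟨w₀, hw₀⟩ := exists_other D hF
  have hT' := hT ⟨.inl P₀, .inr w₀, inT_inl D hP₀, inT_inr D hw₀, fun _ h => Sum.inl_ne_inr h⟩
  have hx0 : x ≠ 0 := hunt.1
  have hfin : ∀ P : HeightOneSpectrum (𝓞 H), NumberField.HeightOneSpectrum.adicAbv H P x = 1 := by
    intro P
    by_cases hP : P.under (𝓞 F) ∈ D.primes
    · have h1 := hT' _ (inT_inl D hP)
      change Real.log (NumberField.HeightOneSpectrum.adicAbv H P x) = 0 at h1
      refine Real.eq_one_of_pos_of_log_eq_zero ?_ h1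
      rw [AbsoluteValue.pos_iff]
      exact hx0
    · exact hunt.2 P fun h1 => hP (mem_abv.1 h1)
  have hgx : ∀ (g : H ≃ₐ[F] H) (w : Pl H), logv (g x) w = logv x (pact g⁻¹ w) := by
    intro g w
    have h1 := logv_pact g (pact g⁻¹ w) x
    rwa [← pact_mul, mul_inv_cancel, pact_one] at h1
  have hg0 : ∀ g : H ≃ₐ[F] H, g x ≠ 0 := fun g => by simpa using hx0
  have hfing : ∀ (g : H ≃ₐ[F] H) (P : HeightOneSpectrum (𝓞 H)),
      NumberField.HeightOneSpectrum.adicAbv H P (g x) = 1 := by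
    intro g P
    have h1 := hgx g (.inl P)
    change Real.log (NumberField.HeightOneSpectrum.adicAbv H P (g x)) =
      Real.log (NumberField.HeightOneSpectrum.adicAbv H (pra g⁻¹ P) x) at h1
    rw [hfin, Real.log_one] at h1
    refine Real.eq_one_of_pos_of_log_eq_zero ?_ h1
    rw [AbsoluteValue.pos_iff]
    exact hg0 g
  choose δ hδ using fun g : H ≃ₐ[F] H => exists_unit (hg0 g) (hfing g)
  refine ⟨m, hm, δ, fun g => ?_, fun g h => ?_, fun g φ hφ => ?_⟩
  · have h1 : D.i (((δ g ^ 2 : (𝓞 H)ˣ) : 𝓞 H) : H) = D.i (g x) ^ 2 := by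
      rw [coe_sq, hδ, map_pow]
    have h2 : D.i (g x) ≠ 0 := by simpa using hx0
    rw [h1]
    refine ⟨by positivity, ?_⟩
    rw [Real.log_pow, ← logv_place D (g x)]
    have h3 := hQ g
    change ((logv (g x) (.inr D.place) : ℝ) : ℂ) = _ at h3
    rw [rank_zeta D hF] at h3
    push_cast
    rw [h3]
    ring
  · rw [hδ, hδ]
    rfl
  · rw [coe_sq, hδ, map_pow, norm_pow]
    have h1 := hT' _ (inT_inr D (w := g⁻¹ • InfinitePlace.mk φ) (by
      rw [comap_act]
      exact comap_ne D hφ))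
    have h2 := hgx g (.inr (InfinitePlace.mk φ))
    change logv x (pact g⁻¹ (.inr (InfinitePlace.mk φ))) = 0 at h1
    rw [h1] at h2
    change ((InfinitePlace.mk φ).mult : ℝ) * Real.log (InfinitePlace.mk φ (g x)) = 0 at h2
    have h3 : ((InfinitePlace.mk φ).mult : ℝ) ≠ 0 := by
      exact_mod_cast InfinitePlace.mult_ne_zero
    have h4 : InfinitePlace.mk φ (g x) = 1 :=
      Real.eq_one_of_pos_of_log_eq_zero ((InfinitePlace.pos_iff).2 (hg0 g))
        ((mul_eq_zero.1 h2).resolve_left h3)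
    have h5 : ‖φ (g x)‖ = 1 := h4
    rw [h5, one_pow]

theorem q1_of_sq (h : D.Q1Sq) : D.Q1 := by
  obtain ⟨n, hn, δ, h1, h2, h3⟩ := h
  refine ⟨n, hn, fun g => δ g ^ 2, h1, fun g h => ?_, h3⟩
  change h (((δ g ^ 2 : (𝓞 H)ˣ) : 𝓞 H) : H) = (((δ (h * g) ^ 2 : (𝓞 H)ˣ) : 𝓞 H) : H)
  rw [coe_sq, coe_sq, map_pow, h2]

theorem rank_of_q1 (hF : Module.finrank ℚ F = 2) [IsGalois F H] (h : D.Q1) :
    (toRank D).Q1 := by
  obtain ⟨n, hn, ε, h1, h2, h3⟩ := h
  have hz : ∀ w, (toRank D).InT w → logv (((ε 1 : (𝓞 H)ˣ) : 𝓞 H) : H) w = 0 := by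
    rintro (P | w) hw
    · change Real.log (NumberField.HeightOneSpectrum.adicAbv H P _) = 0
      rw [unit_abv, Real.log_one]
    · change (w.mult : ℝ) * Real.log (w _) = 0
      have h4 : ‖w.embedding (((ε 1 : (𝓞 H)ˣ) : 𝓞 H) : H)‖ = 1 := by
        refine h3 1 w.embedding fun h5 => ?_
        have h6 : w.comap (algebraMap F H) = D.place.comap (algebraMap F H) := by
          rw [← InfinitePlace.mk_embedding w, RayData.place, InfinitePlace.comap_mk,
            InfinitePlace.comap_mk, h5]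
        obtain ⟨g, hg⟩ := InfinitePlace.exists_smul_eq_of_comap_eq (k := F) h6.symm
        exact hw.2 g (congrArg Sum.inr hg)
      rw [InfinitePlace.norm_embedding_eq] at h4
      rw [h4, Real.log_one, mul_zero]
  refine ⟨2 * n, (((ε 1 : (𝓞 H)ˣ) : 𝓞 H) : H), by omega, ⟨⟨coe_unit_ne _, fun P _ => unit_abv _ P⟩,
    fun _ w hw => hz w hw, fun w₁ w₂ hw₁ hw₂ => by rw [hz _ hw₁, hz _ hw₂]⟩, fun g => ?_⟩
  change ((logv _ (.inr D.place) : ℝ) : ℂ) = _
  rw [logv_place, h2, mul_one, (h1 g).2, rank_zeta D hF]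
  push_cast
  ring

theorem q1_iff_rank (hF : Module.finrank ℚ F = 2) [IsGalois F H] : D.Q1 ↔ (toRank D).Q1 :=
  ⟨rank_of_q1 D hF, fun h => q1_of_sq D (sq_of_rank D hF h)⟩

theorem sq_iff_rank (hF : Module.finrank ℚ F = 2) [IsGalois F H] : D.Q1Sq ↔ (toRank D).Q1 :=
  ⟨fun h => rank_of_q1 D hF (q1_of_sq D h), sq_of_rank D hF⟩

end

end Pool.Agent.Q280.SI
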