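import Pool.Agent.Q20.SI.Row1

/-!
# Elements of exterior powers of groups of units
-/

set_option autoImplicit false
set_option linter.unusedSectionVars false

namespace Pool.Agent.Q280.SI

open NumberField IsDedekindDomain Pool.Agent.Q20.RS Pool.Agent.Q20.SI
open Pool.Agent.Q20.RS.RL (Twister Dihedral StarkEq)

section
variable {F K : Type} [Field F] [NumberField F] [Field K] [NumberField K] [Algebra F K]

/-- the action of the Galois group `G` on `K^×` -/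
def uact (g : K ≃ₐ[F] K) (u : Kˣ) : Kˣ := Units.map (g : K →* K) u

variable (F K) in
/-- a formal combination `x = ∑_k a_k u_{k,1} ∧ … ∧ u_{k,r}`, `a_k = ∑_g a_k(g) g⁻¹` in the rational group
ring of `G`, `u_{k,j}` in `K^×` -/
structure Wedge (r : ℕ) : Type where
  /-- the number of terms -/
  n : ℕ
  /-- the coefficients -/
  a : Fin n → (K ≃ₐ[F] K) → ℚ
  /-- the units -/
  u : Fin n → Fin r → Kˣ

/-- `∑_k χ(a_k) det(∑_g χ(g) f_i(g u_{k,j}))` for homomorphisms `f_1, …, f_r` from `K^×` to `ℂ`: the value of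
`f_1 ∧ … ∧ f_r` at `x`, evaluated at `χ` -/
noncomputable def Wedge.pair {r : ℕ} (x : Wedge F K r) (χ : (K ≃ₐ[F] K) →* ℂˣ)
    (f : Fin r → (Additive Kˣ →+ ℂ)) : ℂ :=
  ∑ k, (∑ g, (x.a k g : ℂ) * cf χ g) *
    (Matrix.of fun i j => ∑ g, cf χ g * f i (Additive.ofMul (uact g (x.u k j)))).det

/-- the regulator of `x`: `∑_k χ(a_k) det(∑_g χ(g) log |g u_{k,j}|_{w_i})` -/
noncomputable def Wedge.reg {r : ℕ} (x : Wedge F K r) (χ : (K ≃ₐ[F] K) →* ℂˣ)
    (w : Fin r → Pl K) : ℂ :=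
  ∑ k, (∑ g, (x.a k g : ℂ) * cf χ g) * (ellM χ (fun j => ((x.u k j : Kˣ) : K)) w).det

/-- the character `Ψ` of `Gal(F̄/F)` is given by `χ` and the embedding `j` of `K` in `F̄` -/
def Giv (j : K →ₐ[F] AlgebraicClosure F) (Ψ : RL.Lin (base F)) (χ : (K ≃ₐ[F] K) →* ℂˣ) : Prop :=
  ∀ (y : K ≃ₐ[F] K) (g : (base F).fixingSubgroup),
    (∀ x : K, j (y x) = (g : Gal(AlgebraicClosure F/F)) (j x)) → cf χ y = Ψ.fn g

/-- Stark's equality for `χ`: for the characters `Ψ` of `Gal(F̄/F)` given by `χ` and an embedding of `K` in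
`F̄`, `A(Ψ)^σ = A(Ψ^σ)` for all automorphisms `σ` of `ℂ` -/
def St (χ : (K ≃ₐ[F] K) →* ℂˣ) : Prop :=
  ∀ (j : K →ₐ[F] AlgebraicClosure F) (Ψ : RL.Lin (base F)), Giv j Ψ χ →
    ∀ σ : ℂ ≃+* ℂ, StarkEq Ψ.fn σ

/-- **The relation for `χ`**: for the characters `Ψ` of `Gal(F̄/F)` given by `χ` and an embedding of `K` in
`F̄` there is a trivial or quadratic character `η`, trivial on the decomposition groups of the primes at
which `Ψ` is ramified, such that `Ψη` is `-1` at all complex conjugations, and either `η` is trivial and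
Stark's equality `A(Ψ)^σ = A(Ψ^σ)` holds for all automorphisms `σ` of `ℂ`, or there are fields
`F ⊆ F₁, F₂ ⊆ F₃` for which the restrictions of `Ψ` are unramified at all finite places,
`Ψ + Ind Ψ|F₃ = Ψη + Ind Ψ|F₁ + Ind Ψ|F₂`, and `d_σ(Ψη) d_σ(Ψ|F₁) d_σ(Ψ|F₂) = d_σ(Ψ|F₃)` for all `σ` -/
def RelG (χ : (K ≃ₐ[F] K) →* ℂˣ) : Prop :=
  ∀ (j : K →ₐ[F] AlgebraicClosure F) (Ψ : RL.Lin (base F)), Giv j Ψ χ →
    ∃ η : RL.Lin (base F), Twister Ψ η ∧ (Ψ.mul η).parity (-1) ∧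
      (((∀ g, η.fn g = 1) ∧ ∀ σ : ℂ ≃+* ℂ, StarkEq Ψ.fn σ) ∨
        ∃ d : Dihedral Ψ η, ∀ σ : ℂ ≃+* ℂ, Balanced d σ)

end

end Pool.Agent.Q280.SI
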