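import Pool.Agent.Q20.SI.All2
import Pool.Agent.Q280.SI.Wdg

/-!
# Elements of exterior powers of groups of units: proofs
-/

set_option autoImplicit false
set_option linter.unusedSectionVars false

namespace Pool.Agent.Q280.SI

open NumberField IsDedekindDomain Pool.Agent.Q20.RS Pool.Agent.Q20.SI
open Pool.Agent.Q20.RS.RL (Twister Dihedral StarkEq Lin.smooth Lin.parity)

section
variable {F K : Type} [Field F] [NumberField F] [Field K] [NumberField K] [Algebra F K]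

theorem cf_one (χ : (K ≃ₐ[F] K) →* ℂˣ) : cf χ 1 = 1 := by
  unfold cf
  rw [map_one, Units.val_one]

theorem cf_mul (χ : (K ≃ₐ[F] K) →* ℂˣ) (g h : K ≃ₐ[F] K) : cf χ (g * h) = cf χ g * cf χ h := by
  unfold cf
  rw [map_mul, Units.val_mul]

/-- the product of two combinations -/
theorem conv_mul (a b : (K ≃ₐ[F] K) → ℂ) (χ : (K ≃ₐ[F] K) →* ℂˣ) :
    (∑ g, a g * cf χ g) * ∑ g, b g * cf χ g =
      ∑ g, (∑ h, a h * b (h⁻¹ * g)) * cf χ g := by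
  rw [Finset.sum_mul_sum]
  simp only [Finset.sum_mul]
  rw [Finset.sum_comm (f := fun g h => a h * b (h⁻¹ * g) * cf χ g)]
  refine Finset.sum_congr rfl fun h _ => ?_
  refine Finset.sum_equiv (Equiv.mulLeft h) (fun _ => by simp) fun k _ => ?_
  rw [Equiv.coe_mulLeft, inv_mul_cancel_left, cf_mul]
  ring

variable (F K) in
/-- the functions on the characters given by the integral group ring -/
def IntChar : Subring (((K ≃ₐ[F] K) →* ℂˣ) → ℂ) where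
  carrier := {v | ∃ c : (K ≃ₐ[F] K) → ℤ, ∀ χ, v χ = ∑ g, (c g : ℂ) * cf χ g}
  zero_mem' := ⟨fun _ => 0, fun χ => by simp⟩
  one_mem' := by
    classical
    refine ⟨fun g => if g = 1 then 1 else 0, fun χ => ?_⟩
    simp only [Int.cast_ite, Int.cast_one, Int.cast_zero, ite_mul, one_mul, zero_mul]
    rw [Finset.sum_ite_eq', if_pos (Finset.mem_univ _), cf_one]
    rfl
  add_mem' := by
    rintro v w ⟨a, ha⟩ ⟨b, hb⟩
    refine ⟨fun g => a g + b g, fun χ => ?_⟩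
    rw [Pi.add_apply, ha, hb, ← Finset.sum_add_distrib]
    refine Finset.sum_congr rfl fun g _ => ?_
    push_cast
    ring
  neg_mem' := by
    rintro v ⟨a, ha⟩
    refine ⟨fun g => -a g, fun χ => ?_⟩
    rw [Pi.neg_apply, ha, ← Finset.sum_neg_distrib]
    refine Finset.sum_congr rfl fun g _ => ?_
    push_cast
    ring
  mul_mem' := by
    rintro v w ⟨a, ha⟩ ⟨b, hb⟩
    refine ⟨fun g => ∑ h, a h * b (h⁻¹ * g), fun χ => ?_⟩
    rw [Pi.mul_apply, ha, hb, conv_mul]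
    push_cast
    rfl

theorem det_mem {n : ℕ} (M : Matrix (Fin n) (Fin n) (((K ≃ₐ[F] K) →* ℂˣ) → ℂ))
    (hM : ∀ i j, M i j ∈ IntChar F K) : M.det ∈ IntChar F K := by
  rw [Matrix.det_apply']
  refine Subring.sum_mem _ fun σ _ => Subring.mul_mem _ ?_ (Subring.prod_mem _ fun i _ => hM _ _)
  exact intCast_mem _ _

theorem det_apply_char {n : ℕ} (M : Matrix (Fin n) (Fin n) (((K ≃ₐ[F] K) →* ℂˣ) → ℂ))
    (χ : (K ≃ₐ[F] K) →* ℂˣ) : M.det χ = (Matrix.of fun i j => M i j χ).det :=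
  (Pi.evalRingHom (fun _ => ℂ) χ).map_det M

/-- combinations of units with given regulators -/
theorem combine {r : ℕ} (w : Fin r → Pl K) (P : (Fin r → K) → Prop)
    (E : ((K ≃ₐ[F] K) →* ℂˣ) → Prop) (hE : ∀ (σ : ℂ ≃+* ℂ) χ, E (cj σ χ) ↔ E χ)
    (t : ((K ≃ₐ[F] K) →* ℂˣ) → ℂ)
    (hG : ∀ χ, E χ → ∃ α : Fin r → K, P α ∧ (∀ σ : ℂ ≃+* ℂ, (ellM (cj σ χ) α w).det ≠ 0) ∧
      ∀ σ : ℂ ≃+* ℂ, t (cj σ χ) / (ellM (cj σ χ) α w).det = σ (t χ / (ellM χ α w).det)) :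
    ∃ (n N : ℕ) (b : Fin n → (K ≃ₐ[F] K) → ℤ) (α : Fin n → Fin r → K), 0 < N ∧ (∀ k, P (α k)) ∧
      (∀ k χ, ¬ E χ → ∑ g, (b k g : ℂ) * cf χ g = 0) ∧
      ∀ χ, E χ → ∑ k, (∑ g, (b k g : ℂ) * cf χ g) * (ellM χ (α k) w).det = N * t χ := by
  classical
  let X : Type := {χ : (K ≃ₐ[F] K) →* ℂˣ // E χ}
  have hX : ∀ χ₀ : X, ∃ α : Fin r → K, P α ∧ (∀ σ : ℂ ≃+* ℂ, (ellM (cj σ χ₀.1) α w).det ≠ 0) ∧
      ∀ σ : ℂ ≃+* ℂ, t (cj σ χ₀.1) / (ellM (cj σ χ₀.1) α w).det =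
        σ (t χ₀.1 / (ellM χ₀.1 α w).det) := fun χ₀ => hG _ χ₀.2
  choose α hα hdet hst using hX
  -- orbits
  let orb : ((K ≃ₐ[F] K) →* ℂˣ) → Finset ((K ≃ₐ[F] K) →* ℂˣ) := fun χ =>
    Finset.univ.filter fun χ' => ∃ σ : ℂ ≃+* ℂ, χ = cj σ χ'
  have horb : ∀ χ χ', χ' ∈ orb χ ↔ ∃ σ : ℂ ≃+* ℂ, χ = cj σ χ' := fun χ χ' => by
    rw [Finset.mem_filter]
    exact ⟨fun h => h.2, fun h => ⟨Finset.mem_univ _, h⟩⟩
  have horbc : ∀ (τ : ℂ ≃+* ℂ) χ, orb (cj τ χ) = orb χ := by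
    intro τ χ
    ext χ'
    rw [horb, horb]
    constructor
    · rintro ⟨σ, hσ⟩
      exact ⟨σ.trans τ.symm, by rw [← cj_cj, ← hσ, cj_symm]⟩
    · rintro ⟨σ, hσ⟩
      exact ⟨σ.trans τ, by rw [← cj_cj, ← hσ]⟩
  have horb0 : ∀ χ, ((orb χ).card : ℂ) ≠ 0 := by
    intro χ
    have h1 : χ ∈ orb χ := (horb χ χ).2 ⟨RingEquiv.refl ℂ, (cj_refl χ).symm⟩
    exact_mod_cast (Finset.card_pos.2 ⟨χ, h1⟩).ne'
  have hexo : ∀ χ χ', χ' ∈ orb χ → (E χ ↔ E χ') := by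
    intro χ χ' h1
    obtain ⟨σ, rfl⟩ := (horb _ _).1 h1
    exact hE σ χ'
  -- the coefficient functions
  let c : X → ((K ≃ₐ[F] K) →* ℂˣ) → ℂ := fun χ₀ χ =>
    if χ₀.1 ∈ orb χ then t χ / (ellM χ (α χ₀) w).det / (orb χ).card else 0
  have hc : ∀ (χ₀ : X) (τ : ℂ ≃+* ℂ) χ, c χ₀ (cj τ χ) = τ (c χ₀ χ) := by
    intro χ₀ τ χ
    change (if χ₀.1 ∈ orb (cj τ χ) then t (cj τ χ) / (ellM (cj τ χ) (α χ₀) w).det /
      (orb (cj τ χ)).card else 0) = τ (if χ₀.1 ∈ orb χ then t χ /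
        (ellM χ (α χ₀) w).det / (orb χ).card else 0)
    rw [horbc]
    by_cases h1 : χ₀.1 ∈ orb χ
    · rw [if_pos h1, if_pos h1, map_div₀, map_natCast]
      congr 1
      obtain ⟨σ, rfl⟩ := (horb _ _).1 h1
      rw [cj_cj, hst χ₀ (σ.trans τ), hst χ₀ σ]
      rfl
    · rw [if_neg h1, if_neg h1, map_zero]
  have hsum : ∀ χ, E χ → t χ = ∑ χ₀ : X, c χ₀ χ * (ellM χ (α χ₀) w).det := by
    intro χ hχ
    have h1 : ∀ χ₀ : X, c χ₀ χ * (ellM χ (α χ₀) w).det =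
        if χ₀.1 ∈ orb χ then t χ / (orb χ).card else 0 := by
      intro χ₀
      change (if χ₀.1 ∈ orb χ then t χ / (ellM χ (α χ₀) w).det / (orb χ).card else 0) *
        (ellM χ (α χ₀) w).det = _
      split_ifs with h2
      · obtain ⟨σ, rfl⟩ := (horb _ _).1 h2
        have h3 := hdet χ₀ σ
        field_simp
      · rw [zero_mul]
    rw [Finset.sum_congr rfl fun χ₀ _ => h1 χ₀]
    have h2 : ∑ χ₀ : X, (if χ₀.1 ∈ orb χ then t χ / (orb χ).card else 0) =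
        ∑ χ' ∈ orb χ, t χ / (orb χ).card := by
      rw [← Finset.sum_filter]
      refine Finset.sum_bij (fun χ₀ _ => χ₀.1) ?_ ?_ ?_ ?_
      · intro χ₀ h3
        exact (Finset.mem_filter.1 h3).2
      · intro a _ b _ h3
        exact Subtype.ext h3
      · intro χ' h3
        exact ⟨⟨χ', (hexo _ _ h3).1 hχ⟩, Finset.mem_filter.2 ⟨Finset.mem_univ _, h3⟩, rfl⟩
      · intro _ _
        rfl
    rw [h2, Finset.sum_const, nsmul_eq_mul]
    have h3 := horb0 χ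
    field_simp
  choose a ha using fun χ₀ => fourier (c χ₀) (hc χ₀)
  -- the common denominator
  let N : ℕ := ∏ χ₀ : X, ∏ g, (a χ₀ g).den
  have hN : 0 < N := Finset.prod_pos fun χ₀ _ => Finset.prod_pos fun g _ => (a χ₀ g).den_pos
  have hb : ∀ χ₀ g, ∃ b : ℤ, (b : ℂ) = (N : ℂ) * (a χ₀ g : ℂ) := by
    intro χ₀ g
    obtain ⟨k, hk⟩ : (a χ₀ g).den ∣ N := (Finset.dvd_prod_of_mem (fun g => (a χ₀ g).den)
      (Finset.mem_univ g)).trans (Finset.dvd_prod_of_mem (fun χ₀ : X => ∏ g, (a χ₀ g).den)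
        (Finset.mem_univ χ₀))
    refine ⟨(a χ₀ g).num * k, ?_⟩
    have h1 : ((a χ₀ g : ℚ) : ℂ) = ((a χ₀ g).num : ℂ) / ((a χ₀ g).den : ℂ) := by
      exact_mod_cast congrArg (fun z : ℚ => (z : ℂ)) (Rat.num_div_den (a χ₀ g)).symm
    have h2 : ((a χ₀ g).den : ℂ) ≠ 0 := by exact_mod_cast (a χ₀ g).den_nz
    rw [hk, h1]
    push_cast
    field_simp
  choose b hb using hb
  have hbc : ∀ χ₀ χ, ∑ g, (b χ₀ g : ℂ) * cf χ g = N * c χ₀ χ := by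
    intro χ₀ χ
    rw [ha χ₀ χ, Finset.mul_sum]
    refine Finset.sum_congr rfl fun g _ => ?_
    rw [hb, mul_assoc]
    rfl
  let e := Fintype.equivFin X
  refine ⟨Fintype.card X, N, fun k => b (e.symm k), fun k => α (e.symm k), hN,
    fun k => hα _, fun k χ hχ => ?_, fun χ hχ => ?_⟩
  · rw [hbc]
    change (N : ℂ) * (if (e.symm k).1 ∈ orb χ then _ else 0) = 0
    rw [if_neg fun h2 => hχ ((hexo _ _ h2).2 (e.symm k).2), mul_zero]
  · rw [hsum χ hχ, ← e.symm.sum_comp, Finset.mul_sum]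
    refine Finset.sum_congr rfl fun k _ => ?_
    rw [hbc]
    ring

/-- Stark's equality from one element of the exterior power -/
theorem stark_conv [IsGalois F K] (hcomm : ∀ a b : K ≃ₐ[F] K, a * b = b * a)
    {S : Finset (HeightOneSpectrum (𝓞 F))}
    (hram : ∀ p : HeightOneSpectrum (𝓞 F), ¬ Unrm K p → p ∈ S) {χ : (K ≃ₐ[F] K) →* ℂˣ}
    (hχ : ∃ g, χ g ≠ 1) {r : ℕ} (w : Fin r → Pl K) (hw : Reps χ (abv K S) w)
    (τ : ((K ≃ₐ[F] K) →* ℂˣ) → ℂ) (hτ : ∀ σ : ℂ ≃+* ℂ, τ (cj σ χ) = σ (τ χ)) (h0 : τ χ ≠ 0)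
    (x : Wedge F K r) (hu : ∀ k j, IsUnt (abv K S) ((x.u k j : Kˣ) : K))
    (hQ : ∀ σ : ℂ ≃+* ℂ, x.reg (cj σ χ) w = lead S (cj σ χ) * τ (cj σ χ)) : St χ := by
  classical
  intro j Ψ hΨ σ
  have hT := stable_abv orb (K := K) S
  have hR := ram_abv orb hram
  obtain ⟨α, hα, hdet, hst⟩ := stark_crit cmpT orb exi Pool.Agent.Q277.SI.ram hcomm j (base_mem j)
    (abv K S) hT hR χ hχ w hw
  refine starkEq_of_level ((hst σ Ψ.fn hΨ).2 fun χ' h' => ?_)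
  have hd0 := hdet χ fun _ => Iff.rfl
  choose c hc using fun m i => cmp_span Pool.Agent.Q176.SI.reg exi (abv K S) hT χ hχ w hw
    α hα hd0 (hu m i)
  let C : Fin x.n → Matrix (Fin r) (Fin r) ℂ := fun m => Matrix.of fun l i => c m i l
  have hC : ∀ (σ : ℂ ≃+* ℂ) (χ' : (K ≃ₐ[F] K) →* ℂˣ), (∀ g, cf χ' g = σ (cf χ g)) → ∀ m,
      (ellM χ' (fun j => ((x.u m j : Kˣ) : K)) w).det = (ellM χ' α w).det * σ (C m).det := by
    intro σ χ' h' m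
    have h1 : ellM χ' (fun j => ((x.u m j : Kˣ) : K)) w = ellM χ' α w * (C m).map σ := by
      ext i k
      rw [Matrix.mul_apply]
      refine (hc m k σ χ' h' i).trans (Finset.sum_congr rfl fun l _ => ?_)
      change σ (c m k l) * ell χ' (α l) (w i) = ell χ' (α l) (w i) * σ (c m k l)
      ring
    have h2 : ((C m).map σ).det = σ (C m).det := ((σ : ℂ →+* ℂ).map_det (C m)).symm
    rw [h1, Matrix.det_mul, h2]
  let B : ℂ := ∑ m, (∑ g, (x.a m g : ℂ) * cf χ g) * (C m).det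
  have hB : ∀ (σ : ℂ ≃+* ℂ) (χ' : (K ≃ₐ[F] K) →* ℂˣ), (∀ g, cf χ' g = σ (cf χ g)) →
      x.reg χ' w = (ellM χ' α w).det * σ B := by
    intro σ χ' h'
    change (∑ k, (∑ g, (x.a k g : ℂ) * cf χ' g) * _) =
      _ * σ (∑ m, (∑ g, (x.a m g : ℂ) * cf χ g) * (C m).det)
    rw [map_sum, Finset.mul_sum]
    refine Finset.sum_congr rfl fun m _ => ?_
    rw [hC σ χ' h' m, map_mul, map_sum]
    have h2 : ∀ g, σ ((x.a m g : ℂ) * cf χ g) = (x.a m g : ℂ) * cf χ' g := by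
      intro g
      rw [map_mul, map_ratCast, h']
    rw [Finset.sum_congr rfl fun g _ => h2 g]
    ring
  have hcj : ∀ (σ : ℂ ≃+* ℂ) (χ' : (K ≃ₐ[F] K) →* ℂˣ), (∀ g, cf χ' g = σ (cf χ g)) →
      χ' = cj σ χ := by
    intro σ χ' h'
    ext g
    exact h' g
  have hlead : ∀ χ' : (K ≃ₐ[F] K) →* ℂˣ, lead S χ' ≠ 0 := fun χ' => leading_ne (lin_mem _ _)
  have hχ' := hcj σ χ' h'
  have h1 := hB (RingEquiv.refl ℂ) χ fun _ => rfl
  have h2 := hB σ χ' h'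
  have h3 := hQ (RingEquiv.refl ℂ)
  rw [cj_refl] at h3
  rw [h3] at h1
  rw [hχ', hQ σ, hτ σ, ← hχ'] at h2
  change lead S χ * τ χ = (ellM χ α w).det * B at h1
  have n1 := hlead χ
  have n2 := hlead χ'
  have n4 : σ (τ χ) ≠ 0 := (map_ne_zero σ).2 h0
  have n5 : B ≠ 0 := by
    intro h0'
    rw [h0', mul_zero] at h1
    exact mul_ne_zero n1 h0 h1
  have n6 : σ B ≠ 0 := (map_ne_zero σ).2 n5
  have e1 : (ellM χ α w).det / lead S χ = τ χ / B := by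
    rw [div_eq_div_iff n1 n5]
    linear_combination -h1
  have e2 : (ellM χ' α w).det / lead S χ' = σ (τ χ) / σ B := by
    rw [div_eq_div_iff n2 n6]
    linear_combination -h2
  change σ ((ellM χ α w).det / lead S χ) = (ellM χ' α w).det / lead S χ'
  rw [e1, e2, map_div₀]

/-- units from Stark's equality -/
theorem good_of_st [IsGalois F K] (hcomm : ∀ a b : K ≃ₐ[F] K, a * b = b * a)
    {S : Finset (HeightOneSpectrum (𝓞 F))}
    (hram : ∀ p : HeightOneSpectrum (𝓞 F), ¬ Unrm K p → p ∈ S) {χ : (K ≃ₐ[F] K) →* ℂˣ}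
    (hχ : ∃ g, χ g ≠ 1) {r : ℕ} (w : Fin r → Pl K) (hw : Reps χ (abv K S) w) (h : St χ) :
    ∃ α : Fin r → K, (∀ i, IsUnt (abv K S) (α i)) ∧
      (∀ σ : ℂ ≃+* ℂ, (ellM (cj σ χ) α w).det ≠ 0) ∧ ∀ σ : ℂ ≃+* ℂ,
        σ ((ellM χ α w).det / lead S χ) = (ellM (cj σ χ) α w).det / lead S (cj σ χ) := by
  have hT := stable_abv orb (K := K) S
  have hR := ram_abv orb hram
  let j : K →ₐ[F] AlgebraicClosure F := IsAlgClosed.lift
  obtain ⟨Ψ, hinf, -⟩ := exists_infl (E := F) (E' := base F) j (base_mem j) χ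
  obtain ⟨α, hα, hdet, hst⟩ := stark_crit cmpT orb exi Pool.Agent.Q277.SI.ram hcomm j (base_mem j)
    (abv K S) hT hR χ hχ w hw
  exact ⟨α, hα, fun σ => hdet _ (cj_one σ χ), fun σ =>
    (hst σ Ψ.fn hinf).1 (level_of_starkEq (h j Ψ hinf σ)) (cj σ χ) fun _ => rfl⟩

/-- Stark's equality for all characters -/
theorem st_all [IsGalois F K] (hU : UnramifiedCase F) (hM : MinimalCase F)
    (χ : (K ≃ₐ[F] K) →* ℂˣ) : St χ := by
  intro j Ψ hΨ σ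
  exact stark_all hU hM (smooth_of_infl (ψ := χ) j hΨ) σ

theorem relG_iff [IsGalois F K] (χ : (K ≃ₐ[F] K) →* ℂˣ) : RelG χ ↔ St χ := by
  constructor
  · intro h j Ψ hΨ σ
    obtain ⟨η, hη, -, hd⟩ := h j Ψ hΨ
    rcases hd with ⟨-, h1⟩ | ⟨d, hd⟩
    · exact h1 σ
    · exact (starkEq_iff_balanced fin_base (smooth_of_infl (ψ := χ) j hΨ) hη.smooth d σ).2 (hd σ)
  · intro h j Ψ hΨ
    have hF : FinExt (base F) := fin_base
    have hs : Ψ.smooth := smooth_of_infl (ψ := χ) j hΨ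
    obtain ⟨η, hη, ho⟩ := RL.exists_odd hF hs (s := -1) (Or.inr rfl)
    refine ⟨η, hη, ho, ?_⟩
    by_cases hne : ∀ g, η.fn g = 1
    · exact Or.inl ⟨hne, h j Ψ hΨ⟩
    push Not at hne
    obtain ⟨d⟩ := RL.exists_dihedral hF hs hη hne
    exact Or.inr ⟨d, fun σ => (starkEq_iff_balanced hF hs hη.smooth d σ).1 (h j Ψ hΨ σ)⟩

end

end Pool.Agent.Q280.SI
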