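import Pool.Agent.Q280.SI.Atr
import Pool.Agent.Q280.SI.Rayp
import Pool.Agent.Q280.SI.Wdgp

/-!
# Stark's conjecture up to powers for abelian extensions of fields with one complex place: proofs
-/

set_option autoImplicit false
set_option linter.unusedSectionVars false

namespace Pool.Agent.Q280.SI

open NumberField IsDedekindDomain Pool.Agent.Q20.RS Pool.Agent.Q20.SI
open Pool.Agent.Q20.RS.RL (Twister Dihedral StarkEq Lin.smooth Lin.parity)
open Pool.Agent.Q20.TR (bt)

section
variable {F K : Type} [Field F] [NumberField F] [Field K] [NumberField K] [Algebra F K]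

theorem cplx_eq (h1 : InfinitePlace.nrComplexPlaces F = 1) {v w : InfinitePlace F}
    (hv : v.IsComplex) (hw : w.IsComplex) : v = w := by
  classical
  have h2 : Fintype.card {w : InfinitePlace F // w.IsComplex} ≤ 1 := h1.le
  rw [Fintype.card_le_one_iff] at h2
  exact congrArg Subtype.val (h2 ⟨v, hv⟩ ⟨w, hw⟩)

theorem exists_real [IsGalois F K] (h1 : 1 ≤ InfinitePlace.nrRealPlaces F) :
    ∃ w : InfinitePlace K, (w.comap (algebraMap F K)).IsReal := by
  classical
  have h2 : 0 < Fintype.card {w : InfinitePlace F // w.IsReal} := h1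
  obtain ⟨v, hv⟩ := Fintype.card_pos_iff.1 h2
  obtain ⟨w, hw⟩ := InfinitePlace.comap_surjective (k := F) (K := K) v
  refine ⟨w, ?_⟩
  change w.comap (algebraMap F K) = v at hw
  rw [hw]
  exact hv

theorem comap_act' [IsGalois F K] (g : K ≃ₐ[F] K) (w : InfinitePlace K) :
    (g • w).comap (algebraMap F K) = w.comap (algebraMap F K) :=
  (InfinitePlace.mem_orbit_iff.1 ⟨g, rfl⟩).symm

variable (D : AtrData F K)

theorem atr_primes {p : HeightOneSpectrum (𝓞 F)} : p ∈ D.primes ↔ p.asIdeal ∣ D.m :=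
  (Ideal.finite_factors D.ne_zero).mem_toFinset

theorem atr_split (g : K ≃ₐ[F] K) (h : g • D.v = D.v) : g = 1 := by
  have h1 : InfinitePlace.mk (D.v.embedding.comp (g.symm : K →+* K)) =
      InfinitePlace.mk D.v.embedding := by
    rw [← InfinitePlace.smul_mk, InfinitePlace.mk_embedding]
    exact h
  rcases InfinitePlace.mk_eq_iff.1 h1 with h2 | h2
  · have h3 : ∀ x, g.symm x = x := fun x => D.v.embedding.injective (DFunLike.congr_fun h2 x)
    ext x
    have h4 := h3 (g x)
    rw [AlgEquiv.symm_apply_apply] at h4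
    exact h4.symm
  · exfalso
    have h3 : ComplexEmbedding.IsReal (D.v.embedding.comp (algebraMap F K)) := by
      rw [ComplexEmbedding.isReal_iff]
      ext x
      have h4 := DFunLike.congr_fun h2 (algebraMap F K x)
      change (starRingEnd ℂ) (D.v.embedding (g.symm (algebraMap F K x))) =
        D.v.embedding (algebraMap F K x) at h4
      rw [AlgEquiv.commutes] at h4
      exact h4
    have h4 : (D.v.comap (algebraMap F K)).IsReal := by
      rw [← InfinitePlace.mk_embedding D.v, InfinitePlace.comap_mk, InfinitePlace.isReal_mk_iff]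
      exact h3
    exact InfinitePlace.not_isReal_iff_isComplex.2 D.cx h4

theorem atr_prime [IsGalois F K] (h : D.m ≠ ⊤) :
    ∃ P : HeightOneSpectrum (𝓞 K), P.under (𝓞 F) ∈ D.primes := by
  obtain ⟨I, hI, hle⟩ := Ideal.exists_le_maximal D.m h
  have hb : I ≠ ⊥ := by
    rintro rfl
    exact D.ne_zero (le_bot_iff.1 hle)
  let p : HeightOneSpectrum (𝓞 F) := ⟨I, hI.isPrime, hb⟩
  obtain ⟨P, hP⟩ := (orb F F K).1 (.inl p)
  rcases P with P | P
  · have h4 : P.under (𝓞 F) = p := Sum.inl_injective hP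
    exact ⟨P, h4 ▸ (atr_primes D).2 (Ideal.dvd_iff_le.2 hle)⟩
  · exact absurd hP (by simp [dn])

/-- the data of rank one -/
noncomputable def atrRank [IsGalois F K] (h1 : 1 ≤ InfinitePlace.nrRealPlaces F) :
    RankOneData F K where
  comm := D.comm
  S := D.primes
  ram := fun p hp => by
    by_contra h
    exact hp (D.ram p fun h1 => h ((atr_primes D).2 h1))
  v := .inr D.v
  mem := trivial
  split := fun g hg => atr_split D g (Sum.inr_injective hg)
  more := by
    obtain ⟨w, hw⟩ := exists_real (F := F) (K := K) h1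
    refine ⟨.inr w, trivial, fun g h => ?_⟩
    have h2 : g • D.v = w := Sum.inr_injective h
    rw [← h2, comap_act'] at hw
    exact InfinitePlace.not_isReal_iff_isComplex.2 D.cx hw

variable (h1 : 1 ≤ InfinitePlace.nrRealPlaces F)

theorem atr_inl [IsGalois F K] {P : HeightOneSpectrum (𝓞 K)} (hP : P.under (𝓞 F) ∈ D.primes) :
    (atrRank D h1).InT (.inl P) :=
  ⟨mem_abv.2 hP, fun _ h => Sum.inr_ne_inl h⟩

theorem atr_inr [IsGalois F K] {w : InfinitePlace K}
    (hw : (w.comap (algebraMap F K)).IsReal) : (atrRank D h1).InT (.inr w) := by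
  refine ⟨trivial, fun g h => ?_⟩
  have h2 : g • D.v = w := Sum.inr_injective h
  rw [← h2, comap_act'] at hw
  exact InfinitePlace.not_isReal_iff_isComplex.2 D.cx hw

/-- two places in `T` -/
theorem atr_two [IsGalois F K] : ∃ w₁ w₂ : Pl K, (atrRank D h1).InT w₁ ∧
    (atrRank D h1).InT w₂ ∧ ∀ g : K ≃ₐ[F] K, pact g w₁ ≠ w₂ := by
  classical
  rcases D.big with h | h
  · obtain ⟨P, hP⟩ := atr_prime D h
    obtain ⟨w, hw⟩ := exists_real (F := F) (K := K) h1
    exact ⟨.inl P, .inr w, atr_inl D h1 hP, atr_inr D h1 hw, fun _ h => Sum.inl_ne_inr h⟩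
  · have h2 : 1 < Fintype.card {w : InfinitePlace F // w.IsReal} := h
    obtain ⟨a, b, hab⟩ := Fintype.one_lt_card_iff.1 h2
    obtain ⟨w, hw⟩ := InfinitePlace.comap_surjective (k := F) (K := K) a.1
    obtain ⟨w', hw'⟩ := InfinitePlace.comap_surjective (k := F) (K := K) b.1
    change w.comap (algebraMap F K) = a.1 at hw
    change w'.comap (algebraMap F K) = b.1 at hw'
    refine ⟨.inr w, .inr w', atr_inr D h1 (hw ▸ a.2), atr_inr D h1 (hw' ▸ b.2), fun g hg => ?_⟩
    have h3 : g • w = w' := Sum.inr_injective hg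
    rw [← h3, comap_act', hw] at hw'
    exact hab (Subtype.ext hw')

variable (hC : InfinitePlace.nrComplexPlaces F = 1)

include hC

theorem atr_exact [IsGalois F K] (χ : (K ≃ₐ[F] K) →* ℂˣ) :
    (atrRank D h1).Exact χ ↔ D.Exact χ := by
  constructor
  · rintro (⟨-, h⟩ | ⟨-, w₀, h⟩)
    · refine ⟨fun w hw => ?_, fun P hP => ?_⟩
      · by_contra hn
        push Not at hn
        obtain ⟨g, hg⟩ := h (.inr w) trivial fun c hc => hn c (Sum.inr_injective hc)
        exact (atr_inr D h1 hw).2 g hg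
      · by_contra hn
        push Not at hn
        obtain ⟨g, hg⟩ := h (.inl P) (mem_abv.2 ((atr_primes D).2 hP))
          fun c hc => hn c (Sum.inl_injective hc)
        exact Sum.inr_ne_inl hg
    · exfalso
      obtain ⟨w₁, w₂, hw₁, hw₂, hne⟩ := atr_two D h1
      obtain ⟨g₁, e1⟩ := (h w₁ hw₁.1).resolve_right fun ⟨g, hg⟩ => hw₁.2 g hg
      obtain ⟨g₂, e2⟩ := (h w₂ hw₂.1).resolve_right fun ⟨g, hg⟩ => hw₂.2 g hg
      refine hne (g₂ * g₁⁻¹) ?_
      rw [← e1, ← pact_mul, inv_mul_cancel_right, e2]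
  · rintro ⟨e1, e2⟩
    refine Or.inl ⟨?_, fun w hw ht => ?_⟩
    · obtain ⟨w, hw⟩ := exists_real (F := F) (K := K) h1
      obtain ⟨g, -, hg⟩ := e1 w hw
      exact ⟨g, hg⟩
    · rcases w with P | w
      · obtain ⟨g, hg, hg1⟩ := e2 P ((atr_primes D).1 (mem_abv.1 hw))
        exact absurd (ht g (congrArg Sum.inl hg)) hg1
      · have h3 : (w.comap (algebraMap F K)).IsComplex := by
          rw [← InfinitePlace.not_isReal_iff_isComplex]
          intro h4
          obtain ⟨c, hc, hc1⟩ := e1 w h4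
          exact hc1 (ht c (congrArg Sum.inr hc))
        obtain ⟨g, hg⟩ := InfinitePlace.exists_smul_eq_of_comap_eq (k := F)
          (cplx_eq hC D.cx h3)
        exact ⟨g, congrArg Sum.inr hg⟩

theorem atr_zeta [IsGalois F K] (g : K ≃ₐ[F] K) : (atrRank D h1).zeta g = D.zeta g := by
  classical
  unfold RankOneData.zeta AtrData.zeta
  congr 1
  refine Finset.sum_congr rfl fun χ _ => ?_
  congr 1
  unfold RankOneData.deriv AtrData.deriv
  exact if_congr (atr_exact D h1 hC χ) rfl rfl

omit hC in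
theorem v_cplx : D.v.IsComplex := D.cx.of_comap _

omit hC in
theorem logv_v (x : K) : logv x (.inr D.v) = 2 * Real.log (D.v x) := by
  change (D.v.mult : ℝ) * Real.log (D.v x) = _
  rw [InfinitePlace.mult, if_neg (InfinitePlace.not_isReal_iff_isComplex.2 (v_cplx D))]
  norm_num

theorem atr_of_rank [IsGalois F K] (h : (atrRank D h1).Q1) : D.Q1 := by
  obtain ⟨m, x, hm, ⟨hunt, hT, -⟩, hQ⟩ := h
  have hT' := hT (atr_two D h1)
  have hx0 : x ≠ 0 := hunt.1
  have hfin : ∀ P : HeightOneSpectrum (𝓞 K), NumberField.HeightOneSpectrum.adicAbv K P x = 1 := by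
    intro P
    by_cases hP : P.under (𝓞 F) ∈ D.primes
    · have e1 := hT' _ (atr_inl D h1 hP)
      change Real.log (NumberField.HeightOneSpectrum.adicAbv K P x) = 0 at e1
      refine Real.eq_one_of_pos_of_log_eq_zero ?_ e1
      rw [AbsoluteValue.pos_iff]
      exact hx0
    · exact hunt.2 P fun e1 => hP (mem_abv.1 e1)
  obtain ⟨u, hu⟩ := exists_unit hx0 hfin
  refine ⟨m, u, hm, fun g => ?_, fun φ hφ => ?_⟩
  · have h3 := hQ g
    change ((logv (g x) (.inr D.v) : ℝ) : ℂ) = _ at h3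
    rw [atr_zeta D h1 hC, logv_v] at h3
    rw [hu, h3]
    ring
  · rw [hu]
    have e1 := hT' (.inr (InfinitePlace.mk φ)) (atr_inr D h1 (by
      rw [InfinitePlace.comap_mk, InfinitePlace.isReal_mk_iff]
      exact hφ))
    change ((InfinitePlace.mk φ).mult : ℝ) * Real.log (InfinitePlace.mk φ x) = 0 at e1
    have h3 : ((InfinitePlace.mk φ).mult : ℝ) ≠ 0 := by
      exact_mod_cast InfinitePlace.mult_ne_zero
    have h4 : InfinitePlace.mk φ x = 1 :=
      Real.eq_one_of_pos_of_log_eq_zero ((InfinitePlace.pos_iff).2 hx0)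
        ((mul_eq_zero.1 e1).resolve_left h3)
    exact h4

theorem rank_of_atr [IsGalois F K] (h : D.Q1) : (atrRank D h1).Q1 := by
  obtain ⟨n, u, hn, e1, e2⟩ := h
  have hz : ∀ w, (atrRank D h1).InT w → logv ((u : 𝓞 K) : K) w = 0 := by
    rintro (P | w) hw
    · change Real.log (NumberField.HeightOneSpectrum.adicAbv K P _) = 0
      rw [unit_abv, Real.log_one]
    · change (w.mult : ℝ) * Real.log (w _) = 0
      have h4 : ‖w.embedding ((u : 𝓞 K) : K)‖ = 1 := by
        refine e2 w.embedding ?_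
        have h5 : (w.comap (algebraMap F K)).IsReal := by
          by_contra h6
          rw [InfinitePlace.not_isReal_iff_isComplex] at h6
          obtain ⟨g, hg⟩ := InfinitePlace.exists_smul_eq_of_comap_eq (k := F) (cplx_eq hC D.cx h6)
          exact hw.2 g (congrArg Sum.inr hg)
        rw [← InfinitePlace.mk_embedding w, InfinitePlace.comap_mk,
          InfinitePlace.isReal_mk_iff] at h5
        exact h5
      rw [InfinitePlace.norm_embedding_eq] at h4
      rw [h4, Real.log_one, mul_zero]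
  refine ⟨n, ((u : 𝓞 K) : K), hn, ⟨⟨coe_unit_ne _, fun P _ => unit_abv _ P⟩,
    fun _ w hw => hz w hw, fun w₁ w₂ hw₁ hw₂ => by rw [hz _ hw₁, hz _ hw₂]⟩, fun g => ?_⟩
  change ((logv _ (.inr D.v) : ℝ) : ℂ) = _
  rw [logv_v, atr_zeta D h1 hC]
  linear_combination e1 g

theorem atr_iff_rank [IsGalois F K] : D.Q1 ↔ (atrRank D h1).Q1 :=
  ⟨rank_of_atr D h1 hC, atr_of_rank D h1 hC⟩

include h1 in
/-- Q1 up to powers in terms of the characters -/
theorem atr_iff [IsGalois F K] : D.Q1 ↔ ∀ χ : (K ≃ₐ[F] K) →* ℂˣ, D.Exact χ → St χ := by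
  rw [atr_iff_rank D h1 hC, one_iff_all]
  constructor
  · intro h χ hex j Ψ hΨ σ
    obtain ⟨w, hw⟩ := exists_real (F := F) (K := K) h1
    obtain ⟨g, -, hg⟩ := hex.1 w hw
    exact h χ ((atr_exact D h1 hC χ).2 hex) ⟨g, hg⟩ σ j Ψ hΨ
  · intro h χ hex _ σ j Ψ hΨ
    exact h χ ((atr_exact D h1 hC χ).1 hex) j Ψ hΨ σ

end

end Pool.Agent.Q280.SI
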