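import Pool.Agent.Q20.SI.Row1
import Pool.Agent.Q20.SI.Fou

/-!
# The monoid form of Stark's conjecture for a real quadratic field, up to powers
-/

set_option autoImplicit false
set_option linter.unusedSectionVars false

namespace Pool.Agent.Q280.SI

open NumberField IsDedekindDomain Pool.Agent.Q20.RS Pool.Agent.Q20.SI
open Pool.Agent.Q20.RS.RL (Twister Dihedral)

/-- **A level**: an ideal `𝔪 ≠ 0` of the real quadratic field `F`, an abelian extension `H` of `F` unramified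
at the primes which do not divide `𝔪`, an embedding of `H` in `ℝ` (the place `∞₁` of `F` given by it splits
completely in `H`), and the complex conjugation `c` of `H` above the other place `∞₂` of `F`. (For the ray
class field of `𝔪∞₂`, the Artin symbol of the class `ℛ` of the question is `c`.) -/
structure Level (F H : Type) [Field F] [NumberField F] [Field H] [NumberField H]
    [Algebra F H] : Type where
  comm : ∀ a b : H ≃ₐ[F] H, a * b = b * a
  /-- the ideal -/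
  m : Ideal (𝓞 F)
  ne_zero : m ≠ 0
  ram : ∀ p : HeightOneSpectrum (𝓞 F), ¬ p.asIdeal ∣ m → Unrm H p
  /-- the embedding -/
  i : H →+* ℝ
  /-- the complex conjugation above `∞₂` -/
  c : H ≃ₐ[F] H
  conj : ∀ φ : H →+* ℂ, φ.comp (algebraMap F H) ≠ (Complex.ofRealHom.comp i).comp (algebraMap F H) →
    ∀ x, φ (c x) = (starRingEnd ℂ) (φ x)

section
variable {F H : Type} [Field F] [NumberField F] [Field H] [NumberField H] [Algebra F H]
  (D : Level F H)

/-- the embedding in `ℂ` -/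
def Level.emb : H →+* ℂ := Complex.ofRealHom.comp D.i

/-- the primes dividing `𝔪` -/
noncomputable def Level.primes : Finset (HeightOneSpectrum (𝓞 F)) :=
  (Ideal.finite_factors D.ne_zero).toFinset

/-- `χ(c) = -1`, and `χ` is not trivial on the decomposition groups of the primes above `𝔪`: the
characters with `χ(c) = -1` for which `L_𝔪(s, χ)` has a simple zero at `s = 0` -/
def Level.Exact (χ : (H ≃ₐ[F] H) →* ℂˣ) : Prop :=
  χ D.c = -1 ∧ ∀ P : HeightOneSpectrum (𝓞 H), (P.under (𝓞 F)).asIdeal ∣ D.m →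
    ∃ g : H ≃ₐ[F] H, pra g P = P ∧ χ g ≠ 1

open scoped Classical in
/-- `L_𝔪'(0, χ)` for the characters with `χ(c) = -1`: the leading coefficient of `L_𝔪(s, χ)` at `s = 0` if
the zero is simple, and `0` otherwise -/
noncomputable def Level.deriv (χ : (H ≃ₐ[F] H) →* ℂˣ) : ℂ :=
  if D.Exact χ then lead D.primes χ else 0

/-- `Z_𝔪'(0, g)` for `Z_𝔪(s, g) = ζ_𝔪(s, g) - ζ_𝔪(s, c g) = |G|⁻¹ ∑_χ (χ(g)⁻¹ - χ(c g)⁻¹) L_𝔪(s, χ)`, the
difference of two partial zeta functions (the characters with `χ(c) = 1` do not contribute) -/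
noncomputable def Level.Z (g : H ≃ₐ[F] H) : ℂ :=
  (Fintype.card (H ≃ₐ[F] H) : ℂ)⁻¹ *
    ∑ χ : (H ≃ₐ[F] H) →* ℂˣ, ((cf χ g)⁻¹ - (cf χ (D.c * g))⁻¹) * D.deriv χ

/-- **Stark's units at the level, up to powers**: there are `n ≥ 1` and units `ε_g = δ_g²` of `H`, one for
each `g` in the Galois group, with (i) `ε_g > 0`, `log ε_g = - n Z_𝔪'(0, g)`, (ii) `h(δ_g) = δ_hg`,
(iii) `|φ(ε_g)| = 1` for all embeddings `φ` of `H` in `ℂ` above `∞₂`, (iv) `H(ε_g^{1/2}) = H(δ_g) = H` is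
abelian over `F` -/
def Level.Units : Prop :=
  ∃ n : ℕ, 0 < n ∧ ∃ δ : (H ≃ₐ[F] H) → (𝓞 H)ˣ,
    (∀ g, 0 < D.i (((δ g ^ 2 : (𝓞 H)ˣ) : 𝓞 H) : H) ∧
      ((Real.log (D.i (((δ g ^ 2 : (𝓞 H)ˣ) : 𝓞 H) : H)) : ℝ) : ℂ) = -(n : ℂ) * D.Z g) ∧
    (∀ g h, h (((δ g : (𝓞 H)ˣ) : 𝓞 H) : H) = (((δ (h * g) : (𝓞 H)ˣ) : 𝓞 H) : H)) ∧
    ∀ g, ∀ φ : H →+* ℂ, φ.comp (algebraMap F H) ≠ D.emb.comp (algebraMap F H) →
      ‖φ (((δ g ^ 2 : (𝓞 H)ˣ) : 𝓞 H) : H)‖ = 1

/-- **Q1 up to powers for the maximal order**: Stark's units up to powers for the classes of the monoid of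
`𝔪∞₂`. These are the elements of the ray class groups of `𝔫∞₂` for the divisors `𝔫` of `𝔪`, that is, of the
Galois groups of the largest subfields of `H` with conductor `𝔫∞₂`; here all divisors `𝔫` of `𝔪` (with
`𝔫 = (1)`) and all subfields `L` of `H`, unramified outside `𝔫`, are treated. -/
def Level.Q1 : Prop :=
  ∀ (L : Type) [Field L] [NumberField L] [Algebra F L] [IsGalois F L] [Algebra L H]
    [IsScalarTower F L H] (E : Level F L), E.m ∣ D.m → E.i = D.i.comp (algebraMap L H) → E.Units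

/-- **The relation for `χ`**: for the characters `Ψ` of `Gal(F̄/F)` given by `χ` and an embedding of `H` in
`F̄` there are a quadratic character `η`, trivial on the decomposition groups of the primes at which
`Ψ` is ramified, such that `Ψη` is totally odd, and fields `F ⊆ F₁, F₂ ⊆ F₃` for which the restrictions
of `Ψ` are unramified at all finite places, `Ψ + Ind Ψ|F₃ = Ψη + Ind Ψ|F₁ + Ind Ψ|F₂`, and
`d_σ(Ψη) d_σ(Ψ|F₁) d_σ(Ψ|F₂) = d_σ(Ψ|F₃)` for all automorphisms `σ` of `ℂ` -/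
def RelO (χ : (H ≃ₐ[F] H) →* ℂˣ) : Prop :=
  ∀ (j : H →ₐ[F] AlgebraicClosure F) (Ψ : RL.Lin (base F)),
    (∀ (y : H ≃ₐ[F] H) (g : (base F).fixingSubgroup),
      (∀ x : H, j (y x) = (g : Gal(AlgebraicClosure F/F)) (j x)) → cf χ y = Ψ.fn g) →
    ∃ η : RL.Lin (base F), Twister Ψ η ∧ (Ψ.mul η).parity (-1) ∧
      ∃ d : Dihedral Ψ η, ∀ σ : ℂ ≃+* ℂ, Balanced d σ

end

end Pool.Agent.Q280.SI
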