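import Pool.Agent.Q280.SI.Monp
import Pool.Agent.Q20.SI.Odd

/-!
# The monoid form of Stark's conjecture for a real quadratic field: all levels
-/

set_option autoImplicit false
set_option linter.unusedSectionVars false

namespace Pool.Agent.Q280.SI

open NumberField IsDedekindDomain Pool.Agent.Q20.RS Pool.Agent.Q20.SI
open Pool.Agent.Q20.RS.RL (Twister Dihedral StarkEq Lin.smooth Lin.parity)
open Pool.Agent.Q20.TR (bt)

section
variable {F H : Type} [Field F] [NumberField F] [Field H] [NumberField H] [Algebra F H]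

theorem relO_iff [IsGalois F H] (i : H →+* ℝ) (χ : (H ≃ₐ[F] H) →* ℂˣ) : RelO χ ↔ St χ := by
  constructor
  · intro h j Ψ hΨ σ
    obtain ⟨η, hη, -, d, hd⟩ := h j Ψ hΨ
    exact (starkEq_iff_balanced fin_base (smooth_of_infl (ψ := χ) j hΨ) hη.smooth d σ).2 (hd σ)
  · intro h j Ψ hΨ
    have hF : FinExt (base F) := fin_base
    have hs : Ψ.smooth := smooth_of_infl (ψ := χ) j hΨ
    obtain ⟨η, hη, ho⟩ := RL.exists_odd hF hs (s := -1) (Or.inr rfl)
    have hne : ∃ g, η.fn g ≠ 1 := by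
      let e : H ≃ₐ[F] j.fieldRange := AlgEquiv.ofInjectiveField j
      obtain ⟨t, ht, htK⟩ := Pool.Agent.Q246.BI.real_cc j.fieldRange
        ⟨i.comp (e.symm : j.fieldRange →+* H)⟩
      have htF : t ∈ (base F).fixingSubgroup := mem_bt t
      have h1 := ho ⟨t, htF⟩ ht
      have h2 : Ψ.fn ⟨t, htF⟩ = 1 := by
        rw [← hΨ 1 ⟨t, htF⟩ fun x => (htK (j x) ⟨x, rfl⟩).symm]
        unfold cf
        rw [map_one, Units.val_one]
      refine ⟨⟨t, htF⟩, fun h3 => ?_⟩
      have h4 : (Ψ.mul η).fn ⟨t, htF⟩ = Ψ.fn ⟨t, htF⟩ * η.fn ⟨t, htF⟩ := rfl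
      rw [h4, h2, h3, mul_one] at h1
      norm_num at h1
    obtain ⟨d⟩ := RL.exists_dihedral hF hs hη hne
    exact ⟨η, hη, ho, d, fun σ => (starkEq_iff_balanced hF hs hη.smooth d σ).1 (h j Ψ hΨ σ)⟩

end

section
variable {F L H : Type} [Field F] [NumberField F] [Field L] [NumberField L] [Field H]
  [NumberField H] [Algebra F L] [Algebra F H] [Algebra L H] [IsScalarTower F L H]

theorem unrm_sub {p : HeightOneSpectrum (𝓞 F)} (h : Unrm H p) : Unrm L p := by
  intro w hw hle
  obtain ⟨W, hW⟩ := Pool.Agent.Q277.SI.exists_above (F := L) (M := H) w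
  refine h W ?_ ?_
  · rw [← hw, ← hW]
    refine HeightOneSpectrum.ext ?_
    change W.asIdeal.comap (algebraMap (𝓞 F) (𝓞 H)) =
      (W.asIdeal.comap (algebraMap (𝓞 L) (𝓞 H))).comap (algebraMap (𝓞 F) (𝓞 L))
    rw [Ideal.comap_comap, ← IsScalarTower.algebraMap_eq]
  · have h1 : W.asIdeal.comap (algebraMap (𝓞 L) (𝓞 H)) = w.asIdeal :=
      congrArg HeightOneSpectrum.asIdeal hW
    have h2 : w.asIdeal.map (algebraMap (𝓞 L) (𝓞 H)) ≤ W.asIdeal := by
      rw [Ideal.map_le_iff_le_comap, h1]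
    calc p.asIdeal.map (algebraMap (𝓞 F) (𝓞 H))
        = (p.asIdeal.map (algebraMap (𝓞 F) (𝓞 L))).map (algebraMap (𝓞 L) (𝓞 H)) := by
          rw [Ideal.map_map, ← IsScalarTower.algebraMap_eq]
      _ ≤ (w.asIdeal ^ 2).map (algebraMap (𝓞 L) (𝓞 H)) := Ideal.map_mono hle
      _ = (w.asIdeal.map (algebraMap (𝓞 L) (𝓞 H))) ^ 2 := Ideal.map_pow _ _ _
      _ ≤ W.asIdeal ^ 2 := Ideal.pow_right_mono h2 2

variable [IsGalois F H] [IsGalois F L]

variable (L H) in
/-- restriction -/
noncomputable abbrev rst : (H ≃ₐ[F] H) →* (L ≃ₐ[F] L) := AlgEquiv.restrictNormalHom L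

theorem rst_apply (y : H ≃ₐ[F] H) (x : L) :
    algebraMap L H (rst L H y x) = y (algebraMap L H x) :=
  AlgEquiv.restrictNormal_commutes y L x

theorem st_up {χ' : (L ≃ₐ[F] L) →* ℂˣ} {χ : (H ≃ₐ[F] H) →* ℂˣ}
    (hχ : ∀ y, χ y = χ' (rst L H y)) (h : St χ') : St χ := by
  intro j Ψ hΨ σ
  let j' : L →ₐ[F] AlgebraicClosure F := j.comp (IsScalarTower.toAlgHom F L H)
  refine h j' Ψ (fun y' g hg => ?_) σ
  obtain ⟨y, hy⟩ := exists_restr (K := F) (E := F) (M := H) j (base_mem j) g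
  have h1 : rst L H y = y' := by
    ext x
    apply j'.injective
    change j' (rst L H y x) = j' (y' x)
    rw [hg x]
    change j (algebraMap L H (rst L H y x)) = (g : Gal(AlgebraicClosure F/F)) (j (algebraMap L H x))
    rw [rst_apply, hy]
  have h2 := hΨ y g hy
  rw [← h2, ← h1]
  unfold cf
  rw [hχ]

theorem st_down {χ' : (L ≃ₐ[F] L) →* ℂˣ} {χ : (H ≃ₐ[F] H) →* ℂˣ}
    (hχ : ∀ y, χ y = χ' (rst L H y)) (h : St χ) : St χ' := by
  intro j' Ψ hΨ σ
  let A : Algebra L (AlgebraicClosure F) := j'.toRingHom.toAlgebra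
  have t : IsScalarTower F L (AlgebraicClosure F) :=
    IsScalarTower.of_algebraMap_eq fun x => (j'.commutes x).symm
  let j₀ : H →ₐ[L] AlgebraicClosure F := IsAlgClosed.lift
  let j : H →ₐ[F] AlgebraicClosure F := j₀.restrictScalars F
  have hj : ∀ x : L, j (algebraMap L H x) = j' x := fun x => j₀.commutes x
  refine h j Ψ (fun y g hy => ?_) σ
  rw [← hΨ (rst L H y) g fun x => ?_]
  · unfold cf
    rw [hχ]
  · rw [← hj, ← hj, rst_apply, hy]

/-- an embedding above the second place and its extension -/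
theorem over_lift {i : H →+* ℝ} {φ : L →+* ℂ}
    (hφ : φ.comp (algebraMap F L) ≠
      (Complex.ofRealHom.comp (i.comp (algebraMap L H))).comp (algebraMap F L)) :
    ∃ φ' : H →+* ℂ, φ'.comp (algebraMap L H) = φ ∧
      φ'.comp (algebraMap F H) ≠ (Complex.ofRealHom.comp i).comp (algebraMap F H) := by
  refine ⟨ComplexEmbedding.lift H φ, ComplexEmbedding.lift_comp_algebraMap H φ, fun h => hφ ?_⟩
  have h1 := ComplexEmbedding.lift_comp_algebraMap H φ
  ext x
  have h2 := DFunLike.congr_fun h x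
  have h3 := DFunLike.congr_fun h1 (algebraMap F L x)
  change ComplexEmbedding.lift H φ (algebraMap L H (algebraMap F L x)) = φ (algebraMap F L x) at h3
  rw [← IsScalarTower.algebraMap_apply] at h3
  change ComplexEmbedding.lift H φ (algebraMap F H x) = (((i (algebraMap F H x) : ℝ)) : ℂ) at h2
  change φ (algebraMap F L x) = (((i (algebraMap L H (algebraMap F L x)) : ℝ)) : ℂ)
  rw [← h3, h2, ← IsScalarTower.algebraMap_apply]

theorem rst_conj (D : Level F H) {φ : L →+* ℂ}
    (hφ : φ.comp (algebraMap F L) ≠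
      (Complex.ofRealHom.comp (D.i.comp (algebraMap L H))).comp (algebraMap F L)) (x : L) :
    φ (rst L H D.c x) = (starRingEnd ℂ) (φ x) := by
  obtain ⟨φ', h1, h2⟩ := over_lift hφ
  have h3 := D.conj φ' h2 (algebraMap L H x)
  rw [← rst_apply] at h3
  have h4 := DFunLike.congr_fun h1
  change ∀ z, φ' (algebraMap L H z) = φ z at h4
  rwa [h4, h4] at h3

theorem rst_c (hF : Module.finrank ℚ F = 2) (D : Level F H) (E : Level F L)
    (hi : E.i = D.i.comp (algebraMap L H)) : rst L H D.c = E.c := by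
  obtain ⟨w, hw⟩ := lv_other E hF
  have h1 := lv_emb_ne E hw
  ext x
  apply w.embedding.injective
  rw [lv_c E h1, rst_conj D (φ := w.embedding)]
  rw [← hi]
  exact h1

end

section
variable {F H : Type} [Field F] [NumberField F] [Field H] [NumberField H] [Algebra F H]
  [IsGalois F H] (D : Level F H)

theorem mon_of_st (hF : Module.finrank ℚ F = 2)
    (h : ∀ χ : (H ≃ₐ[F] H) →* ℂˣ, χ D.c ≠ 1 → St χ) : D.Q1 := by
  intro L _ _ _ _ _ _ E _ hi
  refine (lv_iff E hF).2 fun χ' hex => ?_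
  refine st_down (H := H) (χ' := χ') (χ := χ'.comp (rst L H)) (fun _ => rfl) (h _ ?_)
  change χ' (rst L H D.c) ≠ 1
  rw [rst_c hF D E hi, hex.1]
  intro h
  have h1 := congrArg (fun z : ℂˣ => (z : ℂ)) h
  norm_num at h1

theorem st_of_mon (hF : Module.finrank ℚ F = 2) (h : D.Q1) (χ : (H ≃ₐ[F] H) →* ℂˣ)
    (hχ : χ D.c ≠ 1) : St χ := by
  classical
  let L : IntermediateField F H := IntermediateField.fixedField χ.ker
  have hN : NumberField L := NumberField.of_intermediateField L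
  have hG : IsGalois F L := IsGalois.of_fixedField_normal_subgroup χ.ker
  have hsur : Function.Surjective (rst (F := F) L H) := AlgEquiv.restrictNormalHom_surjective H
  have hker : ∀ y : H ≃ₐ[F] H, rst L H y = 1 ↔ χ y = 1 := by
    intro y
    have h1 : y ∈ L.fixingSubgroup ↔ y ∈ χ.ker := by
      rw [IntermediateField.fixingSubgroup_fixedField]
    rw [MonoidHom.mem_ker] at h1
    rw [← h1, IntermediateField.mem_fixingSubgroup_iff]
    constructor
    · intro h2 x hx
      have h3 := rst_apply (L := L) (H := H) y ⟨x, hx⟩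
      rw [h2] at h3
      exact h3.symm
    · intro h2
      ext x
      exact (rst_apply (L := L) (H := H) y x).trans (h2 _ x.2)
  let χ' : (L ≃ₐ[F] L) →* ℂˣ := (rst L H).liftOfSurjective hsur ⟨χ, fun y hy => by
    rw [MonoidHom.mem_ker] at hy ⊢
    exact (hker y).1 hy⟩
  have hχ' : ∀ y, χ y = χ' (rst L H y) := fun y =>
    ((rst L H).liftOfRightInverse_comp_apply _ (Function.rightInverse_surjInv hsur) ⟨χ, _⟩ y).symm
  -- the ideal
  let S : Finset (HeightOneSpectrum (𝓞 F)) := D.primes.filter fun p => ¬ Unrm L p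
  let n : Ideal (𝓞 F) := ∏ p ∈ S, p.asIdeal
  have hn0 : n ≠ 0 := Finset.prod_ne_zero_iff.2 fun p _ => p.ne_bot
  have hdvd : ∀ p : HeightOneSpectrum (𝓞 F), p.asIdeal ∣ n ↔ p ∈ S := by
    intro p
    constructor
    · intro h
      obtain ⟨q, hq, hpq⟩ := (Prime.dvd_finsetProd_iff p.prime _).1 h
      have h2 : q.asIdeal ≤ p.asIdeal := Ideal.dvd_iff_le.1 hpq
      have h3 : q = p := HeightOneSpectrum.ext (q.isMaximal.eq_of_le p.isPrime.ne_top h2)
      exact h3 ▸ hq
    · intro h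
      exact Finset.dvd_prod_of_mem _ h
  have hnm : n ∣ D.m := by
    refine Finset.prod_dvd_of_coprime (fun p _ q _ hpq => ?_) fun p hp =>
      (lv_primes D).1 (Finset.mem_filter.1 hp).1
    change IsCoprime p.asIdeal q.asIdeal
    rw [Ideal.isCoprime_iff_sup_eq]
    exact p.isMaximal.coprime_of_ne q.isMaximal fun h => hpq (HeightOneSpectrum.ext h)
  let E : Level F L :=
    { comm := fun a b => by
        obtain ⟨a', rfl⟩ := hsur a
        obtain ⟨b', rfl⟩ := hsur b
        rw [← map_mul, D.comm, map_mul]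
      m := n
      ne_zero := hn0
      ram := fun p hp => by
        by_contra h1
        refine hp ((hdvd p).2 (Finset.mem_filter.2 ⟨?_, h1⟩))
        rw [lv_primes]
        by_contra h2
        exact h1 (unrm_sub (H := H) (D.ram p h2))
      i := D.i.comp (algebraMap L H)
      c := rst L H D.c
      conj := fun φ hφ x => rst_conj D hφ x }
  have hE : E.Units := h L E hnm rfl
  refine st_up hχ' (lv_st_of_units E hF hE ⟨?_, fun P hP => ?_⟩)
  · change χ' (rst L H D.c) = -1
    rw [← hχ']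
    exact lv_chi D hF χ hχ
  · have h1 : P.under (𝓞 F) ∈ S := (hdvd _).1 hP
    obtain ⟨g, hg, hg1⟩ := ram_place orb P (Finset.mem_filter.1 h1).2
    refine ⟨g, hg, fun h2 => hg1 ?_⟩
    obtain ⟨y, rfl⟩ := hsur g
    rw [← hχ'] at h2
    exact (hker y).2 h2

/-- **The criterion** -/
theorem mon_iff (hF : Module.finrank ℚ F = 2) :
    D.Q1 ↔ ∀ χ : (H ≃ₐ[F] H) →* ℂˣ, χ D.c ≠ 1 → RelO χ := by
  constructor
  · intro h χ hχ
    exact (relO_iff D.i χ).2 (st_of_mon D hF h χ hχ)
  · intro h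
    exact mon_of_st D hF fun χ hχ => (relO_iff D.i χ).1 (h χ hχ)

theorem mon_red (hF : Module.finrank ℚ F = 2) (hU : UnramifiedCase F) (hM : MinimalCase F) :
    D.Q1 := mon_of_st D hF fun χ _ => st_all hU hM χ

end

end Pool.Agent.Q280.SI
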