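import Pool.Agent.Q280.SI.Rub
import Pool.Agent.Q280.SI.Wdgp

/-!
# Rubin's lattice and multiples of the leading coefficient: proofs
-/

set_option autoImplicit false
set_option linter.unusedSectionVars false

namespace Pool.Agent.Q280.SI

open NumberField IsDedekindDomain Pool.Agent.Q20.RS Pool.Agent.Q20.SI

section
variable {F K : Type} [Field F] [NumberField F] [Field K] [NumberField K] [Algebra F K]

theorem abv_act (g : K ≃ₐ[F] K) (P : HeightOneSpectrum (𝓞 K)) (x : K) :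
    NumberField.HeightOneSpectrum.adicAbv K P (g x) =
      NumberField.HeightOneSpectrum.adicAbv K (pra g⁻¹ P) x := by
  by_cases hx : x = 0
  · rw [hx, map_zero, map_zero, map_zero]
  have h1 := logv_pact g (.inl (pra g⁻¹ P)) x
  have h2 : pact g (.inl (pra g⁻¹ P)) = (.inl P : Pl K) := by
    change Sum.inl (pra g (pra g⁻¹ P)) = _
    rw [← pra_mul, mul_inv_cancel, pra_one]
  rw [h2] at h1
  change Real.log (NumberField.HeightOneSpectrum.adicAbv K P (g x)) =
    Real.log (NumberField.HeightOneSpectrum.adicAbv K (pra g⁻¹ P) x) at h1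
  have hpos : ∀ (Q : HeightOneSpectrum (𝓞 K)) (y : K), y ≠ 0 →
      0 < NumberField.HeightOneSpectrum.adicAbv K Q y := by
    intro Q y hy
    rw [AbsoluteValue.pos_iff]
    exact hy
  exact Real.log_injOn_pos (hpos P _ (by simpa using hx)) (hpos _ x hx) h1

theorem isU_act [IsGalois F K] (D : OrderData F K) (g : K ≃ₐ[F] K) {x : K} (h : D.IsU x) :
    D.IsU (g x) := by
  refine ⟨by simpa using h.1, fun P hP => ?_, fun P hP => ?_⟩
  · rw [abv_act]
    refine h.2.1 _ ?_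
    rwa [under_pra orb]
  · have h1 : g x - 1 = g (x - 1) := by rw [map_sub, map_one]
    rw [h1, abv_act]
    refine h.2.2 _ ?_
    rwa [under_pra orb]

variable (D : OrderData F K)

theorem rubin_conv [IsGalois F K] (h : RubinQ1 D) {χ : (K ≃ₐ[F] K) →* ℂˣ} (hex : D.Exact χ)
    (hχ : ∃ g, χ g ≠ 1) : St χ := by
  obtain ⟨m, x, hm, hx, hQ⟩ := h
  have hm' : (m : ℂ) ≠ 0 := by exact_mod_cast hm.ne'
  refine stark_conv D.comm D.ram hχ D.w (exact_reps D hex hχ) (fun χ' => m * tf D χ') ?_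
    (mul_ne_zero hm' (tf_ne D χ)) x (fun k j => isU_isUnt D (hx.unit k j)) ?_
  · intro σ
    rw [tf_cj, map_mul, map_natCast]
  · intro σ
    rw [hQ, theta_exact D ((exact_iff D (cj_one σ χ)).2 hex)]
    ring

theorem rubin_of_good [IsGalois F K] (h : ∀ χ : (K ≃ₐ[F] K) →* ℂˣ, D.Exact χ → Good D χ) :
    RubinQ1 D := by
  classical
  have hlead : ∀ χ' : (K ≃ₐ[F] K) →* ℂˣ, lead D.S χ' ≠ 0 := lead_ne D
  have hex : ∀ (σ : ℂ ≃+* ℂ) (χ : (K ≃ₐ[F] K) →* ℂˣ), D.Exact (cj σ χ) ↔ D.Exact χ :=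
    fun σ χ => exact_iff D (cj_one σ χ)
  obtain ⟨n, N, b, α, hN, hα, hb0, hb⟩ := combine D.w
    (fun α => ∀ i, IsUnt (abv K D.S) (α i)) D.Exact hex D.theta (fun χ hχ => by
      obtain ⟨α, h1, h2, h3⟩ := h χ hχ
      refine ⟨α, h1, h2, fun σ => ?_⟩
      have h4 := h3 σ
      rw [theta_exact D hχ, theta_exact D ((hex σ χ).2 hχ), tf_cj]
      have n1 := hlead χ
      have n2 := hlead (cj σ χ)
      have n3 := h2 σ
      have n4 := h2 (RingEquiv.refl ℂ)
      rw [cj_refl] at n4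
      have h5 : lead D.S (cj σ χ) / (ellM (cj σ χ) α D.w).det =
          σ (lead D.S χ / (ellM χ α D.w).det) := by
        rw [← inv_div, ← h4, ← map_inv₀, inv_div]
      rw [mul_div_right_comm, h5, mul_div_right_comm, map_mul])
  -- powers of the units
  let M : ℕ := ∏ P ∈ abv K D.T, Nat.card (𝓞 K ⧸ P.asIdeal)ˣ
  have hM : M ≠ 0 := by
    refine Finset.prod_ne_zero_iff.2 fun P _ => ?_
    have hfin : Finite (𝓞 K ⧸ P.asIdeal) := Ideal.finiteQuotientOfFreeOfNeBot P.asIdeal P.ne_bot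
    exact Nat.card_pos.ne'
  have hU : ∀ k j, D.IsU (α k j ^ M) := by
    refine fun k j => ⟨pow_ne_zero _ (hα k j).1, fun P hP => ?_, fun P hP => ?_⟩
    · rw [map_pow, (hα k j).2 P fun h1 => hP (mem_abv.1 h1), one_pow]
    · refine pow_cong _ M P ((hα k j).2 P fun h1 => ?_) (Finset.dvd_prod_of_mem _ (mem_abv.2 hP))
      exact D.disj _ hP (mem_abv.1 h1)
  let x : Wedge F K D.r := ⟨n, fun k g => (b k g : ℚ), fun k j => Units.mk0 (α k j ^ M) (hU k j).1⟩
  have hxa : ∀ k χ, ∑ g, (x.a k g : ℂ) * cf χ g = ∑ g, (b k g : ℂ) * cf χ g := by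
    intro k χ
    refine Finset.sum_congr rfl fun g _ => ?_
    change (((b k g : ℚ) : ℂ)) * _ = _
    push_cast
    rfl
  refine ⟨N * M ^ D.r, x, Nat.mul_pos hN (pow_pos (Nat.pos_of_ne_zero hM) _), ⟨fun k j => hU k j,
    fun f hf => ?_, fun χ hχ f => ?_⟩, fun χ => ?_⟩
  · -- integrality
    choose z hz using hf
    let A : Fin x.n → (((K ≃ₐ[F] K) →* ℂˣ) → ℂ) := fun k χ => ∑ g, (b k g : ℂ) * cf χ g
    let Mx : Fin x.n → Matrix (Fin D.r) (Fin D.r) (((K ≃ₐ[F] K) →* ℂˣ) → ℂ) := fun k =>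
      Matrix.of fun i j => fun χ => ∑ g, cf χ g * f i (Additive.ofMul (uact g (x.u k j)))
    have hv : (∑ k, A k * (Mx k).det) ∈ IntChar F K := by
      refine Subring.sum_mem _ fun k _ => Subring.mul_mem _ ⟨b k, fun _ => rfl⟩
        (det_mem _ fun i j => ?_)
      have hu : ∀ g : K ≃ₐ[F] K, D.IsU ((uact g (x.u k j) : Kˣ) : K) := fun g =>
        isU_act D g (hU k j)
      refine ⟨fun g => z i _ (hu g), fun χ => ?_⟩
      change ∑ g, cf χ g * f i (Additive.ofMul (uact g (x.u k j))) = _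
      refine Finset.sum_congr rfl fun g _ => ?_
      rw [hz i _ (hu g), mul_comm]
    obtain ⟨c, hc⟩ := hv
    refine ⟨c, fun χ => ?_⟩
    rw [← hc χ, Finset.sum_apply]
    unfold Wedge.pair
    refine Finset.sum_congr rfl fun k _ => ?_
    rw [Pi.mul_apply, det_apply_char, hxa]
    rfl
  · unfold Wedge.pair
    refine Finset.sum_eq_zero fun k _ => ?_
    rw [hxa, hb0 k χ hχ, zero_mul]
  · have h1 : ∀ k, (ellM χ (fun j => ((x.u k j : Kˣ) : K)) D.w).det =
        (M : ℂ) ^ D.r * (ellM χ (α k) D.w).det := by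
      intro k
      have h2 : ellM χ (fun j => ((x.u k j : Kˣ) : K)) D.w = (M : ℂ) • ellM χ (α k) D.w := by
        ext i j
        exact ell_pow χ (hα k j).1 M (D.w i)
      rw [h2, Matrix.det_smul, Fintype.card_fin]
    have h3 : x.reg χ D.w = (M : ℂ) ^ D.r *
        ∑ k, (∑ g, (b k g : ℂ) * cf χ g) * (ellM χ (α k) D.w).det := by
      unfold Wedge.reg
      rw [Finset.mul_sum]
      refine Finset.sum_congr rfl fun k _ => ?_
      rw [h1, hxa]
      ring
    rw [h3]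
    by_cases hχ : D.Exact χ
    · rw [hb χ hχ]
      push_cast
      ring
    · have h4 : D.theta χ = 0 := if_neg hχ
      rw [h4, mul_zero, Finset.sum_eq_zero fun k _ => by rw [hb0 k χ hχ, zero_mul], mul_zero]

/-- **Q1 up to a multiple is Stark's equality** -/
theorem rubin_iff [IsGalois F K] : RubinQ1 D ↔
    ∀ χ : (K ≃ₐ[F] K) →* ℂˣ, D.Exact χ → (∃ g, χ g ≠ 1) → St χ := by
  refine ⟨fun h χ hex hχ => rubin_conv D h hex hχ, fun h => rubin_of_good D fun χ hex => ?_⟩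
  by_cases hχ : ∀ g, χ g = 1
  · exact good_triv orb exi Pool.Agent.Q123.SI.lfn Pool.Agent.Q299.SI.CN0.cn0
      Pool.Agent.Q223.SI.rga Pool.Agent.Q223.SI.rgb Pool.Agent.Q176.SI.rgt D hex hχ
  push Not at hχ
  exact good_of_st D.comm D.ram hχ D.w (exact_reps D hex hχ) (h χ hex hχ)

theorem rubin_red [IsGalois F K] (hU : UnramifiedCase F) (hM : MinimalCase F) : RubinQ1 D :=
  (rubin_iff D).2 fun χ _ _ => st_all hU hM χ

theorem rubin_rel [IsGalois F K] : RubinQ1 D ↔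
    ∀ χ : (K ≃ₐ[F] K) →* ℂˣ, D.Exact χ → (∃ g, χ g ≠ 1) → RelG χ := by
  rw [rubin_iff]
  simp only [relG_iff]

end

end Pool.Agent.Q280.SI
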