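import Pool.Agent.Q280.SI.Mon
import Pool.Agent.Q280.SI.Rayp
import Pool.Agent.Q280.SI.Rubp

/-!
# The monoid form of Stark's conjecture for a real quadratic field: one level
-/

set_option autoImplicit false
set_option linter.unusedSectionVars false

namespace Pool.Agent.Q280.SI

open NumberField IsDedekindDomain Pool.Agent.Q20.RS Pool.Agent.Q20.SI
open Pool.Agent.Q20.RS.RL (Twister Dihedral StarkEq)

section
variable {F H : Type} [Field F] [NumberField F] [Field H] [NumberField H] [Algebra F H]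

/-- a Fourier coefficient -/
theorem four_coef (d : ((H ≃ₐ[F] H) →* ℂˣ) → ℂ) (χ' : (H ≃ₐ[F] H) →* ℂˣ) :
    ∑ g, cf χ' g * ((Fintype.card (H ≃ₐ[F] H) : ℂ)⁻¹ *
      ∑ χ₁ : (H ≃ₐ[F] H) →* ℂˣ, (cf χ₁ g)⁻¹ * d χ₁) = d χ' := by
  classical
  have hG : (Fintype.card (H ≃ₐ[F] H) : ℂ) ≠ 0 := by exact_mod_cast Fintype.card_ne_zero
  have h2 : ∀ g, cf χ' g * ((Fintype.card (H ≃ₐ[F] H) : ℂ)⁻¹ *
      ∑ χ₁ : (H ≃ₐ[F] H) →* ℂˣ, (cf χ₁ g)⁻¹ * d χ₁) =
      (Fintype.card (H ≃ₐ[F] H) : ℂ)⁻¹ *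
        ∑ χ₁ : (H ≃ₐ[F] H) →* ℂˣ, d χ₁ * (cf χ' g * (cf χ₁ g)⁻¹) := by
    intro g
    have h3 : ∑ χ₁ : (H ≃ₐ[F] H) →* ℂˣ, d χ₁ * (cf χ' g * (cf χ₁ g)⁻¹) =
        cf χ' g * ∑ χ₁ : (H ≃ₐ[F] H) →* ℂˣ, (cf χ₁ g)⁻¹ * d χ₁ := by
      rw [Finset.mul_sum]
      refine Finset.sum_congr rfl fun χ₁ _ => ?_
      ring
    rw [h3]
    ring
  rw [Finset.sum_congr rfl fun g _ => h2 g, ← Finset.mul_sum, Finset.sum_comm]
  have h3 : ∀ χ₁ : (H ≃ₐ[F] H) →* ℂˣ, ∑ g, d χ₁ * (cf χ' g * (cf χ₁ g)⁻¹) =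
      if χ' = χ₁ then d χ₁ * Fintype.card (H ≃ₐ[F] H) else 0 := by
    intro χ₁
    rw [← Finset.mul_sum]
    have h4 : ∑ g, cf χ' g * (cf χ₁ g)⁻¹ =
        if χ' = χ₁ then (Fintype.card (H ≃ₐ[F] H) : ℂ) else 0 := orth χ' χ₁
    rw [h4]
    split_ifs
    · rfl
    · rw [mul_zero]
  rw [Finset.sum_congr rfl fun χ₁ _ => h3 χ₁, Finset.sum_ite_eq, if_pos (Finset.mem_univ _)]
  field_simp

variable (D : Level F H)

theorem lv_primes {p : HeightOneSpectrum (𝓞 F)} : p ∈ D.primes ↔ p.asIdeal ∣ D.m :=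
  (Ideal.finite_factors D.ne_zero).mem_toFinset

/-- the place of `H` given by the embedding -/
noncomputable def Level.place : InfinitePlace H := InfinitePlace.mk D.emb

theorem lv_conj_emb : ComplexEmbedding.conjugate D.emb = D.emb := by
  ext x
  exact Complex.conj_ofReal _

theorem lv_mk_comp {φ : H →+* ℂ} {L : Type} [Field L] (f f' : L →+* H)
    (h : InfinitePlace.mk (φ.comp f) = InfinitePlace.mk (D.emb.comp f')) :
    φ.comp f = D.emb.comp f' := by
  rcases InfinitePlace.mk_eq_iff.1 h with h2 | h2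
  · exact h2
  · ext x
    have h3 := DFunLike.congr_fun h2 x
    have h4 : (starRingEnd ℂ) (φ (f x)) = D.emb (f' x) := h3
    have h5 : (starRingEnd ℂ) (D.emb (f' x)) = D.emb (f' x) := Complex.conj_ofReal _
    rw [← h4, Complex.conj_conj] at h5
    exact h5.trans h4

theorem lv_split (g : H ≃ₐ[F] H) (h : g • D.place = D.place) : g = 1 := by
  have h2 : D.emb.comp (g.symm : H →+* H) = D.emb.comp (RingHom.id H) :=
    lv_mk_comp D _ _ h
  have h3 : ∀ x, g.symm x = x := fun x => D.emb.injective (DFunLike.congr_fun h2 x)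
  ext x
  have h4 := h3 (g x)
  rw [AlgEquiv.symm_apply_apply] at h4
  exact h4.symm

theorem lv_real : D.place.IsReal := by
  unfold Level.place
  rw [InfinitePlace.isReal_mk_iff]
  exact lv_conj_emb D

theorem lv_act [IsGalois F H] (g : H ≃ₐ[F] H) (w : InfinitePlace H) :
    (g • w).comap (algebraMap F H) = w.comap (algebraMap F H) :=
  (InfinitePlace.mem_orbit_iff.1 ⟨g, rfl⟩).symm

theorem lv_other (hF : Module.finrank ℚ F = 2) [IsGalois F H] :
    ∃ w : InfinitePlace H, w.comap (algebraMap F H) ≠ D.place.comap (algebraMap F H) := by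
  classical
  by_contra hn
  push Not at hn
  have h1 : ∀ v : InfinitePlace F, v = D.place.comap (algebraMap F H) := by
    intro v
    obtain ⟨w, hw⟩ := InfinitePlace.comap_surjective (k := F) (K := H) v
    rw [← hw]
    exact hn w
  have h2 : (D.place.comap (algebraMap F H)).IsReal := (lv_real D).comap _
  have h3 : InfinitePlace.nrComplexPlaces F = 0 := by
    unfold InfinitePlace.nrComplexPlaces
    rw [Fintype.card_eq_zero_iff]
    exact ⟨fun v => InfinitePlace.not_isReal_iff_isComplex.2 v.2 (h1 v.1 ▸ h2)⟩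
  have h4 : InfinitePlace.nrRealPlaces F ≤ 1 := by
    unfold InfinitePlace.nrRealPlaces
    rw [Fintype.card_le_one_iff]
    intro a b
    exact Subtype.ext ((h1 a.1).trans (h1 b.1).symm)
  have h5 := InfinitePlace.card_add_two_mul_card_eq_rank F
  omega

theorem lv_comap_ne {φ : H →+* ℂ}
    (hφ : φ.comp (algebraMap F H) ≠ D.emb.comp (algebraMap F H)) :
    (InfinitePlace.mk φ).comap (algebraMap F H) ≠ D.place.comap (algebraMap F H) :=
  fun h => hφ (lv_mk_comp D _ _ h)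

theorem lv_emb_ne {w : InfinitePlace H}
    (hw : w.comap (algebraMap F H) ≠ D.place.comap (algebraMap F H)) :
    w.embedding.comp (algebraMap F H) ≠ D.emb.comp (algebraMap F H) := by
  intro h
  apply hw
  rw [← InfinitePlace.mk_embedding w, Level.place, InfinitePlace.comap_mk,
    InfinitePlace.comap_mk, h]

theorem lv_c {φ : H →+* ℂ} (hφ : φ.comp (algebraMap F H) ≠ D.emb.comp (algebraMap F H)) (x : H) :
    φ (D.c x) = (starRingEnd ℂ) (φ x) := D.conj φ hφ x

theorem lv_fix {w : InfinitePlace H}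
    (hw : w.comap (algebraMap F H) ≠ D.place.comap (algebraMap F H)) : D.c • w = w := by
  have h1 : InfinitePlace.mk (w.embedding.comp (D.c.symm : H →+* H)) =
      InfinitePlace.mk w.embedding := by
    rw [InfinitePlace.mk_eq_iff]
    right
    ext x
    change (starRingEnd ℂ) (w.embedding (D.c.symm x)) = w.embedding x
    rw [← lv_c D (lv_emb_ne D hw), AlgEquiv.apply_symm_apply]
  rw [← InfinitePlace.smul_mk, InfinitePlace.mk_embedding] at h1
  exact h1

theorem lv_stab {w : InfinitePlace H}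
    (hw : w.comap (algebraMap F H) ≠ D.place.comap (algebraMap F H)) (g : H ≃ₐ[F] H)
    (h : g • w = w) : g = 1 ∨ g = D.c := by
  have h1 : InfinitePlace.mk (w.embedding.comp (g.symm : H →+* H)) =
      InfinitePlace.mk w.embedding := by
    rw [← InfinitePlace.smul_mk, InfinitePlace.mk_embedding]
    exact h
  rcases InfinitePlace.mk_eq_iff.1 h1 with h2 | h2
  · left
    have h3 : ∀ x, g.symm x = x := fun x => w.embedding.injective (DFunLike.congr_fun h2 x)
    ext x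
    have h4 := h3 (g x)
    rw [AlgEquiv.symm_apply_apply] at h4
    exact h4.symm
  · right
    ext x
    apply w.embedding.injective
    have h3 := DFunLike.congr_fun h2 (g x)
    change (starRingEnd ℂ) (w.embedding (g.symm (g x))) = w.embedding (g x) at h3
    rw [AlgEquiv.symm_apply_apply] at h3
    rw [← h3, lv_c D (lv_emb_ne D hw)]

theorem lv_sq (hF : Module.finrank ℚ F = 2) [IsGalois F H] : D.c * D.c = 1 := by
  obtain ⟨w, hw⟩ := lv_other D hF
  ext x
  apply w.embedding.injective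
  change w.embedding (D.c (D.c x)) = w.embedding x
  rw [lv_c D (lv_emb_ne D hw), lv_c D (lv_emb_ne D hw), Complex.conj_conj]

theorem lv_chi (hF : Module.finrank ℚ F = 2) [IsGalois F H] (χ : (H ≃ₐ[F] H) →* ℂˣ)
    (h : χ D.c ≠ 1) : χ D.c = -1 := by
  have h1 : χ D.c * χ D.c = 1 := by rw [← map_mul, lv_sq D hF, map_one]
  have h2 : ((χ D.c : ℂˣ) : ℂ) * ((χ D.c : ℂˣ) : ℂ) = 1 := by
    rw [← Units.val_mul, h1, Units.val_one]
  rcases mul_self_eq_one_iff.1 h2 with h3 | h3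
  · exact absurd (Units.ext h3) h
  · exact Units.ext h3

/-- the data of rank one -/
noncomputable def lvRank (hF : Module.finrank ℚ F = 2) [IsGalois F H] : RankOneData F H where
  comm := D.comm
  S := D.primes
  ram := fun p hp => by
    by_contra h
    exact hp (D.ram p fun h1 => h ((lv_primes D).2 h1))
  v := .inr D.place
  mem := trivial
  split := fun g hg => lv_split D g (Sum.inr_injective hg)
  more := by
    obtain ⟨w, hw⟩ := lv_other D hF
    refine ⟨.inr w, trivial, fun g h => hw ?_⟩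
    have h2 : g • D.place = w := Sum.inr_injective h
    rw [← h2, lv_act]

theorem lv_inl (hF : Module.finrank ℚ F = 2) [IsGalois F H] {P : HeightOneSpectrum (𝓞 H)}
    (hP : P.under (𝓞 F) ∈ D.primes) : (lvRank D hF).InT (.inl P) :=
  ⟨mem_abv.2 hP, fun _ h => Sum.inr_ne_inl h⟩

theorem lv_inr (hF : Module.finrank ℚ F = 2) [IsGalois F H] {w : InfinitePlace H}
    (hw : w.comap (algebraMap F H) ≠ D.place.comap (algebraMap F H)) :
    (lvRank D hF).InT (.inr w) := by
  refine ⟨trivial, fun g h => hw ?_⟩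
  rw [← Sum.inr_injective h]
  exact lv_act g D.place

theorem lv_exact (hF : Module.finrank ℚ F = 2) [IsGalois F H] (χ : (H ≃ₐ[F] H) →* ℂˣ)
    (hc : χ D.c = -1) : (lvRank D hF).Exact χ ↔ D.Exact χ := by
  have hc1 : χ D.c ≠ 1 := by
    rw [hc]
    intro h
    have h1 := congrArg (fun z : ℂˣ => (z : ℂ)) h
    norm_num at h1
  constructor
  · rintro (⟨-, h⟩ | ⟨h, -⟩)
    · refine ⟨hc, fun P hP => ?_⟩
      by_contra hn
      push Not at hn
      obtain ⟨g, hg⟩ := h (.inl P) (mem_abv.2 ((lv_primes D).2 hP))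
        fun c hc => hn c (Sum.inl_injective hc)
      exact Sum.inr_ne_inl hg
    · exact absurd (h _) hc1
  · rintro ⟨-, h2⟩
    refine Or.inl ⟨⟨D.c, hc1⟩, fun w hw ht => ?_⟩
    rcases w with P | w
    · obtain ⟨g, hg, hg1⟩ := h2 P ((lv_primes D).1 (mem_abv.1 hw))
      exact absurd (ht g (congrArg Sum.inl hg)) hg1
    · have h3 : w.comap (algebraMap F H) = D.place.comap (algebraMap F H) := by
        by_contra h4
        exact hc1 (ht _ (congrArg Sum.inr (lv_fix D h4)))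
      obtain ⟨g, hg⟩ := InfinitePlace.exists_smul_eq_of_comap_eq (k := F) h3.symm
      exact ⟨g, congrArg Sum.inr hg⟩

/-- the difference of the two partial zeta functions -/
theorem lv_zeta (hF : Module.finrank ℚ F = 2) [IsGalois F H] (g : H ≃ₐ[F] H) :
    (lvRank D hF).zeta g - (lvRank D hF).zeta (D.c * g) = D.Z g := by
  classical
  unfold RankOneData.zeta Level.Z
  rw [← mul_sub, ← Finset.sum_sub_distrib]
  congr 1
  refine Finset.sum_congr rfl fun χ _ => ?_
  rw [← sub_mul]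
  by_cases hc : χ D.c = 1
  · have h1 : cf χ (D.c * g) = cf χ g := by
      rw [cf_mul]
      unfold cf
      rw [hc, Units.val_one, one_mul]
    rw [h1, sub_self, zero_mul, zero_mul]
  · congr 1
    unfold RankOneData.deriv Level.deriv
    exact if_congr (lv_exact D hF χ (lv_chi D hF χ hc)) rfl rfl

theorem lv_Z (g : H ≃ₐ[F] H) : D.Z g = (Fintype.card (H ≃ₐ[F] H) : ℂ)⁻¹ *
    ∑ χ : (H ≃ₐ[F] H) →* ℂˣ, (cf χ g)⁻¹ * (2 * D.deriv χ) := by
  unfold Level.Z
  congr 1
  refine Finset.sum_congr rfl fun χ _ => ?_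
  by_cases hex : D.Exact χ
  · have h1 : cf χ (D.c * g) = - cf χ g := by
      rw [cf_mul]
      unfold cf
      rw [hex.1, Units.val_neg, Units.val_one, neg_one_mul]
    rw [h1, inv_neg]
    ring
  · have h1 : D.deriv χ = 0 := if_neg hex
    rw [h1, mul_zero, mul_zero, mul_zero]

theorem lv_logv (x : H) : logv x (.inr D.place) = Real.log (D.i x) := by
  change (D.place.mult : ℝ) * Real.log (D.place x) = _
  rw [InfinitePlace.mult, if_pos (lv_real D), Nat.cast_one, one_mul]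
  change Real.log ‖D.emb x‖ = _
  have h1 : ‖D.emb x‖ = |D.i x| := Complex.norm_real _
  rw [h1, Real.log_abs]

theorem lv_units_of_rank (hF : Module.finrank ℚ F = 2) [IsGalois F H]
    (h : (lvRank D hF).Q1) : D.Units := by
  obtain ⟨m, x, hm, ⟨hunt, -, hT⟩, hQ⟩ := h
  have hx0 : x ≠ 0 := hunt.1
  have hg0 : ∀ g : H ≃ₐ[F] H, g x ≠ 0 := fun g => by simpa using hx0
  have hgx : ∀ (g : H ≃ₐ[F] H) (w : Pl H), logv (g x) w = logv x (pact g⁻¹ w) := by
    intro g w
    have h1 := logv_pact g (pact g⁻¹ w) x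
    rwa [← pact_mul, mul_inv_cancel, pact_one] at h1
  -- the differences vanish on `T`
  have hdT : ∀ (g g' : H ≃ₐ[F] H) (w : Pl H), (lvRank D hF).InT w →
      logv (g x) w = logv (g' x) w := by
    intro g g' w hw
    have hin : ∀ k : H ≃ₐ[F] H, (lvRank D hF).InT (pact k w) := by
      intro k
      refine ⟨?_, fun l hl => hw.2 (k⁻¹ * l) ?_⟩
      · rcases w with P | w
        · exact mem_abv.2 (by
            rw [under_pra orb]
            exact mem_abv.1 hw.1)
        · trivial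
      · rw [pact_mul, hl, ← pact_mul, inv_mul_cancel, pact_one]
    rw [hgx, hgx]
    exact hT _ _ (hin _) (hin _)
  let y : (H ≃ₐ[F] H) → H := fun g => g x * ((D.c * g) x)⁻¹
  have hy0 : ∀ g, y g ≠ 0 := fun g => mul_ne_zero (hg0 _) (inv_ne_zero (hg0 _))
  have hpos : ∀ (P : HeightOneSpectrum (𝓞 H)) (z : H), z ≠ 0 →
      0 < NumberField.HeightOneSpectrum.adicAbv H P z := by
    intro P z hz
    rw [AbsoluteValue.pos_iff]
    exact hz
  have habv : ∀ (g g' : H ≃ₐ[F] H) (P : HeightOneSpectrum (𝓞 H)),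
      NumberField.HeightOneSpectrum.adicAbv H P (g x) =
        NumberField.HeightOneSpectrum.adicAbv H P (g' x) := by
    intro g g' P
    by_cases hP : P.under (𝓞 F) ∈ D.primes
    · have h1 := hdT g g' _ (lv_inl D hF hP)
      change Real.log (NumberField.HeightOneSpectrum.adicAbv H P (g x)) =
        Real.log (NumberField.HeightOneSpectrum.adicAbv H P (g' x)) at h1
      exact Real.log_injOn_pos (hpos P _ (hg0 g)) (hpos P _ (hg0 g')) h1
    · have h1 : ∀ k : H ≃ₐ[F] H, NumberField.HeightOneSpectrum.adicAbv H P (k x) = 1 := by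
        intro k
        rw [abv_act]
        refine hunt.2 _ fun h2 => hP ?_
        have h3 := mem_abv.1 h2
        rwa [under_pra orb] at h3
      rw [h1, h1]
  have hfin : ∀ (g : H ≃ₐ[F] H) (P : HeightOneSpectrum (𝓞 H)),
      NumberField.HeightOneSpectrum.adicAbv H P (y g) = 1 := by
    intro g P
    change NumberField.HeightOneSpectrum.adicAbv H P (g x * ((D.c * g) x)⁻¹) = 1
    rw [map_mul, map_inv₀, habv g (D.c * g) P, mul_inv_cancel₀ (hpos P _ (hg0 _)).ne']
  choose δ hδ using fun g : H ≃ₐ[F] H => exists_unit (hy0 g) (hfin g)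
  refine ⟨2 * m, by omega, δ, fun g => ?_, fun g h => ?_, fun g φ hφ => ?_⟩
  · have h1 : D.i (((δ g ^ 2 : (𝓞 H)ˣ) : 𝓞 H) : H) = D.i (y g) ^ 2 := by
      rw [coe_sq, hδ, map_pow]
    have h2 : D.i (y g) ≠ 0 := by simpa using hy0 g
    rw [h1]
    refine ⟨by positivity, ?_⟩
    have ha : D.i (g x) ≠ 0 := by simpa using hx0
    have hb : D.i ((D.c * g) x) ≠ 0 := by simpa using hx0
    have h3 : Real.log (D.i (y g)) = Real.log (D.i (g x)) - Real.log (D.i ((D.c * g) x)) := by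
      change Real.log (D.i (g x * ((D.c * g) x)⁻¹)) = _
      rw [map_mul, map_inv₀, Real.log_mul ha (inv_ne_zero hb), Real.log_inv]
      ring
    rw [Real.log_pow, h3, ← lv_logv D (g x), ← lv_logv D ((D.c * g) x)]
    have h4 := hQ g
    have h5 := hQ (D.c * g)
    change ((logv (g x) (.inr D.place) : ℝ) : ℂ) = _ at h4
    change ((logv ((D.c * g) x) (.inr D.place) : ℝ) : ℂ) = _ at h5
    push_cast
    rw [h4, h5, ← lv_zeta D hF]
    ring
  · rw [hδ, hδ]
    change h (g x * ((D.c * g) x)⁻¹) = (h * g) x * ((D.c * (h * g)) x)⁻¹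
    have h1 : D.c * (h * g) = h * (D.c * g) := by
      rw [← mul_assoc, D.comm D.c h, mul_assoc]
    rw [h1, map_mul, map_inv₀]
    rfl
  · rw [coe_sq, hδ, map_pow, norm_pow]
    have h1 := hdT g (D.c * g) _ (lv_inr D hF (lv_comap_ne D hφ))
    change ((InfinitePlace.mk φ).mult : ℝ) * Real.log (InfinitePlace.mk φ (g x)) =
      ((InfinitePlace.mk φ).mult : ℝ) * Real.log (InfinitePlace.mk φ ((D.c * g) x)) at h1
    have h3 : ((InfinitePlace.mk φ).mult : ℝ) ≠ 0 := by
      exact_mod_cast InfinitePlace.mult_ne_zero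
    have h4 := mul_left_cancel₀ h3 h1
    have h5 : InfinitePlace.mk φ (g x) = InfinitePlace.mk φ ((D.c * g) x) :=
      Real.log_injOn_pos ((InfinitePlace.pos_iff).2 (hg0 g)) ((InfinitePlace.pos_iff).2 (hg0 _)) h4
    have h6 : ‖φ (g x)‖ = ‖φ ((D.c * g) x)‖ := h5
    have h7 : ‖φ ((D.c * g) x)‖ ≠ 0 := by
      rw [norm_ne_zero_iff]
      simpa using hx0
    change ‖φ (g x * ((D.c * g) x)⁻¹)‖ ^ 2 = 1
    rw [map_mul, map_inv₀, norm_mul, norm_inv, h6, mul_inv_cancel₀ h7, one_pow]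

theorem lv_reps (hF : Module.finrank ℚ F = 2) [IsGalois F H] {χ : (H ≃ₐ[F] H) →* ℂˣ}
    (hex : D.Exact χ) : Reps χ (abv H D.primes) (fun _ : Fin 1 => (.inr D.place : Pl H)) := by
  obtain ⟨-, h⟩ | ⟨h, -⟩ := (lv_exact D hF χ hex.1).2 hex
  · refine ⟨fun _ => trivial, fun _ g hg => by
      rw [lv_split D g (Sum.inr_injective hg), map_one], fun v hv ht => ?_,
      fun i j _ _ => Subsingleton.elim i j⟩
    obtain ⟨g, hg⟩ := h v hv ht
    exact ⟨0, g, hg⟩
  · exfalso
    have h1 := hex.1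
    rw [h] at h1
    have h2 := congrArg (fun z : ℂˣ => (z : ℂ)) h1
    norm_num at h2

theorem lv_ex_cj (σ : ℂ ≃+* ℂ) {χ : (H ≃ₐ[F] H) →* ℂˣ} (h : D.Exact χ) : D.Exact (cj σ χ) := by
  refine ⟨?_, fun P hP => ?_⟩
  · apply Units.ext
    rw [cj_val, h.1, Units.val_neg, Units.val_one, map_neg, map_one]
  · obtain ⟨g, hg, hg1⟩ := h.2 P hP
    exact ⟨g, hg, fun h1 => hg1 ((cj_one σ χ g).1 h1)⟩

theorem lv_st_of_units (hF : Module.finrank ℚ F = 2) [IsGalois F H] (h : D.Units)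
    {χ : (H ≃ₐ[F] H) →* ℂˣ} (hex : D.Exact χ) : St χ := by
  classical
  obtain ⟨n, hn, δ, h1, h2, -⟩ := h
  have hn' : (n : ℂ) ≠ 0 := by exact_mod_cast hn.ne'
  have hχ : ∃ g, χ g ≠ 1 := by
    refine ⟨D.c, ?_⟩
    rw [hex.1]
    intro h
    have h1 := congrArg (fun z : ℂˣ => (z : ℂ)) h
    norm_num at h1
  let x : Wedge F H 1 := ⟨1, fun _ g => if g = 1 then 1 else 0,
    fun _ _ => Units.mk0 _ (coe_unit_ne (δ 1))⟩
  refine stark_conv D.comm (S := D.primes) (lvRank D hF).ram hχ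
    (fun _ : Fin 1 => (.inr D.place : Pl H)) (lv_reps D hF hex) (fun _ => -(n : ℂ))
    (fun σ => by rw [map_neg, map_natCast]) (neg_ne_zero.2 hn') x
    (fun _ _ => ⟨coe_unit_ne _, fun P _ => unit_abv _ P⟩) fun σ => ?_
  have hexσ := lv_ex_cj D σ hex
  have ha : ∑ g, (x.a 0 g : ℂ) * cf (cj σ χ) g = 1 := by
    have h3 : ∀ g : H ≃ₐ[F] H, (x.a 0 g : ℂ) * cf (cj σ χ) g =
        if g = 1 then cf (cj σ χ) g else 0 := by
      intro g
      change (((if g = 1 then 1 else 0 : ℚ)) : ℂ) * _ = _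
      split_ifs
      · push_cast
        rw [one_mul]
      · push_cast
        rw [zero_mul]
    rw [Finset.sum_congr rfl fun g _ => h3 g, Finset.sum_ite_eq', if_pos (Finset.mem_univ _),
      cf_one]
  have hd : (ellM (cj σ χ) (fun j => ((x.u 0 j : Hˣ) : H))
      (fun _ : Fin 1 => (.inr D.place : Pl H))).det =
      ell (cj σ χ) (((δ 1 : (𝓞 H)ˣ) : 𝓞 H) : H) (.inr D.place) := by
    rw [Matrix.det_unique]
    rfl
  have hreg : x.reg (cj σ χ) (fun _ : Fin 1 => (.inr D.place : Pl H)) =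
      ell (cj σ χ) (((δ 1 : (𝓞 H)ˣ) : 𝓞 H) : H) (.inr D.place) := by
    change ∑ k : Fin 1, (∑ g, (x.a k g : ℂ) * cf (cj σ χ) g) * _ = _
    rw [Fin.sum_univ_one]
    rw [ha, one_mul]
    exact hd
  rw [hreg]
  have hval : ∀ g : H ≃ₐ[F] H, ((logv (g (((δ 1 : (𝓞 H)ˣ) : 𝓞 H) : H)) (.inr D.place) : ℝ) : ℂ) =
      -((n : ℂ) / 2) * D.Z g := by
    intro g
    have h3 : (g (((δ 1 : (𝓞 H)ˣ) : 𝓞 H) : H)) = (((δ g : (𝓞 H)ˣ) : 𝓞 H) : H) := by
      rw [h2 1 g, mul_one]
    have h4 := (h1 g).2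
    rw [coe_sq, map_pow, Real.log_pow] at h4
    rw [h3, lv_logv]
    push_cast at h4
    linear_combination (1 / 2) * h4
  have h5 : ell (cj σ χ) (((δ 1 : (𝓞 H)ˣ) : 𝓞 H) : H) (.inr D.place) =
      -((n : ℂ) / 2) * ∑ g, cf (cj σ χ) g * D.Z g := by
    unfold ell
    rw [Finset.mul_sum]
    refine Finset.sum_congr rfl fun g _ => ?_
    rw [hval g]
    unfold cf
    ring
  have h6 : ∑ g, cf (cj σ χ) g * D.Z g = 2 * D.deriv (cj σ χ) := by
    rw [Finset.sum_congr rfl fun g _ => by rw [lv_Z D g]]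
    exact four_coef (fun χ => 2 * D.deriv χ) _
  have h7 : D.deriv (cj σ χ) = lead D.primes (cj σ χ) := if_pos hexσ
  rw [h5, h6, h7]
  ring

/-- **The level in terms of the characters** -/
theorem lv_iff (hF : Module.finrank ℚ F = 2) [IsGalois F H] :
    D.Units ↔ ∀ χ : (H ≃ₐ[F] H) →* ℂˣ, D.Exact χ → St χ := by
  refine ⟨fun h χ hex => lv_st_of_units D hF h hex, fun h => lv_units_of_rank D hF ?_⟩
  rw [one_iff_all]
  intro χ hex hχ σ j Ψ hΨ
  have hc : χ D.c = -1 := by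
    obtain ⟨-, h1⟩ | ⟨h1, -⟩ := hex
    · refine lv_chi D hF χ fun h2 => ?_
      obtain ⟨w, hw⟩ := lv_other D hF
      obtain ⟨g, hg⟩ := h1 (.inr w) trivial fun k hk => by
        rcases lv_stab D hw k (Sum.inr_injective hk) with h3 | h3
        · rw [h3, map_one]
        · rw [h3, h2]
      exact (lv_inr D hF hw).2 g hg
    · obtain ⟨g, hg⟩ := hχ
      exact absurd (h1 g) hg
  exact h χ ((lv_exact D hF χ hc).1 hex) j Ψ hΨ σ

end

end Pool.Agent.Q280.SI
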