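import Pool.Agent.Q280.SI.Wdg

/-!
# Popescu's lattice and multiples of the evaluator
-/

set_option autoImplicit false
set_option linter.unusedSectionVars false

namespace Pool.Agent.Q280.SI

open NumberField IsDedekindDomain Pool.Agent.Q20.RS Pool.Agent.Q20.SI

/-- **The data of the question**: an abelian extension `K` of `F`, the set `S` of the finite places in
question (it contains the ramified ones; the archimedean places are always included), places
`w_1, …, w_r`, `r = s + 1`, of `K` above different places `v_1, …, v_r` of `S` which split completely in `K`;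
there is another place in `S` -/
structure PopData (F K : Type) [Field F] [NumberField F] [Field K] [NumberField K]
    [Algebra F K] : Type where
  comm : ∀ a b : K ≃ₐ[F] K, a * b = b * a
  /-- the finite places in `S` -/
  S : Finset (HeightOneSpectrum (𝓞 F))
  ram : ∀ p : HeightOneSpectrum (𝓞 F), ¬ Unrm K p → p ∈ S
  /-- the number `r - 1` -/
  s : ℕ
  /-- the places above the split places -/
  w : Fin (s + 1) → Pl K
  mem : ∀ i, InPl (abv K S) (w i)
  split : ∀ (i : Fin (s + 1)) (g : K ≃ₐ[F] K), pact g (w i) = w i → g = 1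
  dist : ∀ (i j : Fin (s + 1)) (g : K ≃ₐ[F] K), pact g (w i) = w j → i = j
  more : ∃ v : Pl K, InPl (abv K S) v ∧ ∀ (i : Fin (s + 1)) (g : K ≃ₐ[F] K), pact g (w i) ≠ v

section
variable {F K : Type} [Field F] [NumberField F] [Field K] [NumberField K] [Algebra F K]
  (D : PopData F K)

/-- `χ ∈ Ĝ'`: for `χ ≠ 1`, `χ` is not trivial on the decomposition groups of the places in `S` other than
`v_1, …, v_r`; for `χ = 1`, there is exactly one such place -/
def PopData.Exact (χ : (K ≃ₐ[F] K) →* ℂˣ) : Prop :=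
  ((∃ g, χ g ≠ 1) ∧ ∀ v : Pl K, InPl (abv K D.S) v → Triv χ v →
    ∃ (i : Fin (D.s + 1)) (g : K ≃ₐ[F] K), pact g (D.w i) = v) ∨
  ((∀ g, χ g = 1) ∧ ∃ v₀ : Pl K, ∀ v : Pl K, InPl (abv K D.S) v →
    (∃ g : K ≃ₐ[F] K, pact g v₀ = v) ∨
      ∃ (i : Fin (D.s + 1)) (g : K ≃ₐ[F] K), pact g (D.w i) = v)

open scoped Classical in
/-- `L_S^*(0, χ)` if `χ ∈ Ĝ'`, and `0` otherwise -/
noncomputable def PopData.value (χ : (K ≃ₐ[F] K) →* ℂˣ) : ℂ :=
  if D.Exact χ then lead D.S χ else 0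

/-- `x` lies in Popescu's lattice `Λ`, and in the part of `Ĝ'`: it is a rational combination of exterior
products of `S`-units; for homomorphisms `f_1, …, f_{r-1}` from `K^×` to `ℂ` with integral values on the
`S`-units (so `φ_i : u ↦ ∑_g f_i(g u) g⁻¹` are homomorphisms from the `S`-units to the integral group ring, and
all are of this form) `(φ_1 ∧ … ∧ φ_{r-1})(x)` is the image of `v^{w_K}` for an `S`-unit `v`, `w_K` the number of
roots of unity in `K` (so `K((v^{w_K})^{1/w_K}) = K` is abelian over `F`):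
`(φ_1 ∧ … ∧ φ_{r-1} ∧ φ)(x) = φ(v^{w_K})` for all `φ`; and the `χ`-parts of `x` vanish for `χ ∉ Ĝ'` -/
structure InLambda (x : Wedge F K (D.s + 1)) : Prop where
  unit : ∀ k j, IsUnt (abv K D.S) ((x.u k j : Kˣ) : K)
  contr : ∀ f : Fin D.s → (Additive Kˣ →+ ℂ),
    (∀ i, ∀ u : Kˣ, IsUnt (abv K D.S) (u : K) → ∃ z : ℤ, f i (Additive.ofMul u) = z) →
    ∃ v : Kˣ, IsUnt (abv K D.S) (v : K) ∧ ∀ (χ : (K ≃ₐ[F] K) →* ℂˣ) (h : Additive Kˣ →+ ℂ),
      x.pair χ (Fin.snoc (α := fun _ => Additive Kˣ →+ ℂ) f h) =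
        ∑ g, cf χ g * h (Additive.ofMul (uact g (v ^ NumberField.Units.torsionOrder K)))
  part : ∀ χ : (K ≃ₐ[F] K) →* ℂˣ, ¬ D.Exact χ → ∀ f : Fin (D.s + 1) → (Additive Kˣ →+ ℂ),
    x.pair χ f = 0

/-- **Q1 up to a multiple**: there are `m ≥ 1` and `x = m η'` in `Λ`, that is, with regulator
`R(x) = m ∑_{χ ∈ Ĝ'} L_S^*(0, χ) e_χ̄` -/
def PopQ1 : Prop :=
  ∃ (m : ℕ) (x : Wedge F K (D.s + 1)), 0 < m ∧ InLambda D x ∧
    ∀ χ : (K ≃ₐ[F] K) →* ℂˣ, (-1) ^ (D.s + 1) * x.reg χ D.w = m * D.value χ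

end

end Pool.Agent.Q280.SI
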