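import Pool.Agent.Q280.SI.Pop
import Pool.Agent.Q280.SI.Wdgp

/-!
# Popescu's lattice and multiples of the evaluator: proofs
-/

set_option autoImplicit false
set_option linter.unusedSectionVars false

namespace Pool.Agent.Q280.SI

open NumberField IsDedekindDomain Pool.Agent.Q20.RS Pool.Agent.Q20.SI

section
variable {F K : Type} [Field F] [NumberField F] [Field K] [NumberField K] [Algebra F K]

theorem uact_mul (g h : K ≃ₐ[F] K) (u : Kˣ) : uact (g * h) u = uact g (uact h u) := by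
  ext
  rfl

/-- the action as a homomorphism -/
def uactH (g : K ≃ₐ[F] K) : Additive Kˣ →+ Additive Kˣ :=
  MonoidHom.toAdditive (Units.map (g : K →* K))

theorem uactH_apply (g : K ≃ₐ[F] K) (u : Kˣ) :
    uactH g (Additive.ofMul u) = Additive.ofMul (uact g u) := rfl

/-- multiplication by an element of the group ring -/
theorem ring_act (c : (K ≃ₐ[F] K) → ℤ) (u : Kˣ) (χ : (K ≃ₐ[F] K) →* ℂˣ)
    (h : Additive Kˣ →+ ℂ) :
    (∑ g, (c g : ℂ) * cf χ g) * ∑ g, cf χ g * h (Additive.ofMul (uact g u)) =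
      ∑ g, cf χ g * h (uactH g (∑ k, c k • Additive.ofMul (uact k⁻¹ u))) := by
  have h1 : ∀ g : K ≃ₐ[F] K, cf χ g * h (uactH g (∑ k, c k • Additive.ofMul (uact k⁻¹ u))) =
      ∑ k, (c k : ℂ) * (cf χ g * h (Additive.ofMul (uact (g * k⁻¹) u))) := by
    intro g
    rw [map_sum, map_sum, Finset.mul_sum]
    refine Finset.sum_congr rfl fun k _ => ?_
    rw [map_zsmul, map_zsmul, uactH_apply, ← uact_mul, zsmul_eq_mul]
    ring
  rw [Finset.sum_congr rfl fun g _ => h1 g, Finset.sum_comm, Finset.sum_mul]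
  refine Finset.sum_congr rfl fun k _ => ?_
  rw [← Finset.mul_sum, mul_assoc, Finset.mul_sum]
  congr 1
  refine Finset.sum_equiv (Equiv.mulRight k) (fun _ => by simp) fun g _ => ?_
  rw [Equiv.coe_mulRight, mul_inv_cancel_right, cf_mul]
  ring

theorem unt_uact {S : Finset (HeightOneSpectrum (𝓞 F))} [IsGalois F K] (g : K ≃ₐ[F] K) {u : Kˣ}
    (h : IsUnt (abv K S) (u : K)) : IsUnt (abv K S) ((uact g u : Kˣ) : K) :=
  adicAbv_act (stable_abv orb (K := K) S) g h

variable (D : PopData F K)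

theorem pop_exact {χ χ' : (K ≃ₐ[F] K) →* ℂˣ} (h : ∀ g, χ' g = 1 ↔ χ g = 1) :
    D.Exact χ' ↔ D.Exact χ := by
  have h1 : ∀ v : Pl K, Triv χ' v ↔ Triv χ v := fun v =>
    ⟨fun h2 g hg => (h g).1 (h2 g hg), fun h2 g hg => (h g).2 (h2 g hg)⟩
  unfold PopData.Exact
  simp only [h1, h, ne_eq]

theorem pop_reps {χ : (K ≃ₐ[F] K) →* ℂˣ} (h : D.Exact χ) (hχ : ∃ g, χ g ≠ 1) :
    Reps χ (abv K D.S) D.w := by
  obtain ⟨-, h⟩ | ⟨h, -⟩ := h
  · exact ⟨D.mem, fun i g hg => by rw [D.split i g hg, map_one], h, D.dist⟩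
  · obtain ⟨g, hg⟩ := hχ
    exact absurd (h g) hg

/-- Stark's equalities for `χ` in terms of units -/
def PopGood (χ : (K ≃ₐ[F] K) →* ℂˣ) : Prop :=
  ∃ α : Fin (D.s + 1) → K, (∀ i, IsUnt (abv K D.S) (α i)) ∧
    (∀ σ : ℂ ≃+* ℂ, (ellM (cj σ χ) α D.w).det ≠ 0) ∧ ∀ σ : ℂ ≃+* ℂ,
      σ ((ellM χ α D.w).det / lead D.S χ) = (ellM (cj σ χ) α D.w).det / lead D.S (cj σ χ)

theorem pop_triv [IsGalois F K] {χ : (K ≃ₐ[F] K) →* ℂˣ} (hex : D.Exact χ)
    (hχ : ∀ g, χ g = 1) : PopGood D χ := by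
  have hT := stable_abv orb (K := K) D.S
  have hχ1 : χ = 1 := MonoidHom.ext hχ
  subst hχ1
  obtain ⟨⟨g, hg⟩, -⟩ | ⟨-, v₀, hv₀⟩ := hex
  · exact absurd (hχ g) hg
  obtain ⟨w, hw, hwn⟩ := D.more
  obtain ⟨g₀, hg₀⟩ : ∃ g : K ≃ₐ[F] K, pact g v₀ = w := by
    rcases hv₀ w hw with h | ⟨i, g, h⟩
    · exact h
    · exact absurd h (hwn i g)
  have hv₀' : v₀ = pact g₀⁻¹ w := by
    rw [← hg₀, ← pact_mul, inv_mul_cancel, pact_one]
  have hin : InPl (abv K D.S) v₀ := by
    rw [hv₀']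
    exact inPl_pact hT _ hw
  obtain ⟨α, q, hα, h0, hq⟩ := triv_units orb exi Pool.Agent.Q123.SI.lfn
    Pool.Agent.Q299.SI.CN0.cn0 Pool.Agent.Q223.SI.rga Pool.Agent.Q223.SI.rgb
    Pool.Agent.Q176.SI.rgt D.ram D.w v₀ hin D.mem
    (fun i g h => hwn i (g₀ * g) (by rw [pact_mul, h, hg₀])) D.dist hv₀
  have hcj : ∀ σ : ℂ ≃+* ℂ, cj σ (1 : (K ≃ₐ[F] K) →* ℂˣ) = 1 := by
    intro σ
    ext g
    exact map_one σ
  refine ⟨α, hα, fun σ => ?_, fun σ => ?_⟩
  · rw [hcj]
    exact h0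
  · rw [hcj, hq, map_ratCast]

theorem pop_conv [IsGalois F K] (h : PopQ1 D) {χ : (K ≃ₐ[F] K) →* ℂˣ} (hex : D.Exact χ)
    (hχ : ∃ g, χ g ≠ 1) : St χ := by
  obtain ⟨m, x, hm, hx, hQ⟩ := h
  have hm' : (m : ℂ) ≠ 0 := by exact_mod_cast hm.ne'
  have hs : ((-1 : ℂ) ^ (D.s + 1)) * (-1) ^ (D.s + 1) = 1 := by
    rw [← mul_pow, neg_one_mul, neg_neg, one_pow]
  refine stark_conv D.comm D.ram hχ D.w (pop_reps D hex hχ) (fun _ => m * (-1) ^ (D.s + 1)) ?_
    (mul_ne_zero hm' (pow_ne_zero _ (neg_ne_zero.2 one_ne_zero))) x hx.unit ?_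
  · intro σ
    rw [map_mul, map_natCast, map_pow, map_neg, map_one]
  · intro σ
    have h1 := hQ (cj σ χ)
    have h2 : D.value (cj σ χ) = lead D.S (cj σ χ) :=
      if_pos ((pop_exact D (cj_one σ χ)).2 hex)
    rw [h2] at h1
    linear_combination ((-1 : ℂ) ^ (D.s + 1)) * h1 - x.reg (cj σ χ) D.w * hs

theorem pop_of_good [IsGalois F K] (h : ∀ χ : (K ≃ₐ[F] K) →* ℂˣ, D.Exact χ → PopGood D χ) :
    PopQ1 D := by
  classical
  have hlead : ∀ χ' : (K ≃ₐ[F] K) →* ℂˣ, lead D.S χ' ≠ 0 := fun χ' => leading_ne (lin_mem _ _)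
  have hex : ∀ (σ : ℂ ≃+* ℂ) (χ : (K ≃ₐ[F] K) →* ℂˣ), D.Exact (cj σ χ) ↔ D.Exact χ :=
    fun σ χ => pop_exact D (cj_one σ χ)
  have hval : ∀ χ, D.Exact χ → D.value χ = lead D.S χ := fun χ hχ => if_pos hχ
  obtain ⟨n, N, b, α, hN, hα, hb0, hb⟩ := combine D.w
    (fun α => ∀ i, IsUnt (abv K D.S) (α i)) D.Exact hex D.value (fun χ hχ => by
      obtain ⟨α, h1, h2, h3⟩ := h χ hχ
      refine ⟨α, h1, h2, fun σ => ?_⟩
      have h4 := h3 σ
      rw [hval χ hχ, hval _ ((hex σ χ).2 hχ), ← inv_div, ← h4, ← map_inv₀, inv_div])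
  let W : ℕ := NumberField.Units.torsionOrder K
  have hW : 0 < W := NumberField.Units.torsionOrder_pos K
  let e : ℤ := (-1) ^ (D.s + 1)
  have hec : (e : ℂ) * (-1) ^ (D.s + 1) = 1 := by
    change (((-1 : ℤ) ^ (D.s + 1) : ℤ) : ℂ) * _ = 1
    push_cast
    rw [← mul_pow, neg_one_mul, neg_neg, one_pow]
  let U : Fin n → Fin (D.s + 1) → Kˣ := fun k j => Units.mk0 (α k j) (hα k j).1
  let x : Wedge F K (D.s + 1) := ⟨n, fun k g => ((W * e * b k g : ℤ) : ℚ), U⟩
  have hxa : ∀ k χ, ∑ g, (x.a k g : ℂ) * cf χ g =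
      (W : ℂ) * e * ∑ g, (b k g : ℂ) * cf χ g := by
    intro k χ
    rw [Finset.mul_sum]
    refine Finset.sum_congr rfl fun g _ => ?_
    change ((((W * e * b k g : ℤ) : ℚ) : ℂ)) * _ = _
    push_cast
    ring
  refine ⟨N * W, x, Nat.mul_pos hN hW, ⟨fun k j => hα k j, fun f hf => ?_, fun χ hχ f => ?_⟩,
    fun χ => ?_⟩
  · -- the contraction
    choose z hz using hf
    have hent : ∀ (k : Fin n) (i : Fin D.s) (j : Fin (D.s + 1)),
        (fun χ : (K ≃ₐ[F] K) →* ℂˣ =>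
          ∑ g, cf χ g * f i (Additive.ofMul (uact g (U k j)))) ∈ IntChar F K := by
      intro k i j
      have hu : ∀ g : K ≃ₐ[F] K, IsUnt (abv K D.S) ((uact g (U k j) : Kˣ) : K) := fun g =>
        unt_uact g (hα k j)
      refine ⟨fun g => z i _ (hu g), fun χ => Finset.sum_congr rfl fun g _ => ?_⟩
      rw [hz i _ (hu g), mul_comm]
    let A : Fin n → (((K ≃ₐ[F] K) →* ℂˣ) → ℂ) := fun k χ => ∑ g, (b k g : ℂ) * cf χ g
    let Mx : Fin n → Fin (D.s + 1) → Matrix (Fin D.s) (Fin D.s) (((K ≃ₐ[F] K) →* ℂˣ) → ℂ) :=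
      fun k j => Matrix.of fun i l => fun χ =>
        ∑ g, cf χ g * f i (Additive.ofMul (uact g (U k (j.succAbove l))))
    have hv : ∀ (k : Fin n) (j : Fin (D.s + 1)),
        (-1) ^ (D.s + (j : ℕ)) * (A k * (Mx k j).det) ∈ IntChar F K := by
      intro k j
      refine Subring.mul_mem _ (Subring.pow_mem _ (Subring.neg_mem _ (Subring.one_mem _)) _)
        (Subring.mul_mem _ ⟨b k, fun _ => rfl⟩ (det_mem _ fun i l => hent k i _))
    choose c hc using hv
    let v₀ : Additive Kˣ := ∑ k, ∑ j, ∑ g, c k j g • Additive.ofMul (uact g⁻¹ (U k j))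
    have hv₀ : v₀ ∈ untG (abv K D.S) := by
      refine AddSubgroup.sum_mem _ fun k _ => AddSubgroup.sum_mem _ fun j _ =>
        AddSubgroup.sum_mem _ fun g _ => AddSubgroup.zsmul_mem _ ?_ _
      exact unt_uact g⁻¹ (hα k j)
    let v₁ : Kˣ := (e • v₀).toMul
    have hv₁ : IsUnt (abv K D.S) (v₁ : K) := by
      have h1 : e • v₀ ∈ untG (abv K D.S) := AddSubgroup.zsmul_mem _ hv₀ _
      exact h1
    refine ⟨v₁, hv₁, fun χ h => ?_⟩
    · have hpair : x.pair χ (Fin.snoc (α := fun _ => Additive Kˣ →+ ℂ) f h) = (W : ℂ) * e *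
          ∑ k, A k χ * (Matrix.of fun i j => ∑ g, cf χ g *
            (Fin.snoc (α := fun _ => Additive Kˣ →+ ℂ) f h : Fin (D.s + 1) → _) i
              (Additive.ofMul (uact g (U k j)))).det := by
        unfold Wedge.pair
        rw [Finset.mul_sum]
        refine Finset.sum_congr rfl fun k _ => ?_
        rw [hxa, mul_assoc]
      have hlap : ∀ k, A k χ * (Matrix.of fun i j => ∑ g, cf χ g *
            (Fin.snoc (α := fun _ => Additive Kˣ →+ ℂ) f h : Fin (D.s + 1) → _) i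
              (Additive.ofMul (uact g (U k j)))).det =
          ∑ j, ∑ g, cf χ g * h (uactH g (∑ l, c k j l • Additive.ofMul (uact l⁻¹ (U k j)))) := by
        intro k
        rw [Matrix.det_succ_row _ (Fin.last D.s), Finset.mul_sum]
        refine Finset.sum_congr rfl fun j _ => ?_
        rw [← ring_act, ← hc k j χ]
        have h1 : ((-1) ^ (D.s + (j : ℕ)) * (A k * (Mx k j).det)) χ =
            (-1) ^ (D.s + (j : ℕ)) * (A k χ * (Matrix.of fun i l => Mx k j i l χ).det) := by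
          rw [← det_apply_char]
          rfl
        rw [h1]
        have h2 : (Matrix.of fun i j => ∑ g, cf χ g *
            (Fin.snoc (α := fun _ => Additive Kˣ →+ ℂ) f h : Fin (D.s + 1) → _) i
              (Additive.ofMul (uact g (U k j)))) (Fin.last D.s) j =
            ∑ g, cf χ g * h (Additive.ofMul (uact g (U k j))) := by
          change ∑ g, cf χ g * (Fin.snoc (α := fun _ => Additive Kˣ →+ ℂ) f h :
            Fin (D.s + 1) → _) (Fin.last D.s) _ = _
          rw [Fin.snoc_last]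
        have h3 : (Matrix.of fun i j => ∑ g, cf χ g *
            (Fin.snoc (α := fun _ => Additive Kˣ →+ ℂ) f h : Fin (D.s + 1) → _) i
              (Additive.ofMul (uact g (U k j)))).submatrix (Fin.last D.s).succAbove j.succAbove =
            Matrix.of fun i l => Mx k j i l χ := by
          ext i l
          change ∑ g, cf χ g * (Fin.snoc (α := fun _ => Additive Kˣ →+ ℂ) f h :
            Fin (D.s + 1) → _) ((Fin.last D.s).succAbove i) _ = _
          rw [Fin.succAbove_last, Fin.snoc_castSucc]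
          rfl
        rw [h2, h3, Fin.val_last]
        ring
      rw [hpair, Finset.sum_congr rfl fun k _ => hlap k]
      have h4 : ∀ g : K ≃ₐ[F] K, h (Additive.ofMul (uact g (v₁ ^ W))) =
          (W : ℂ) * e * ∑ k, ∑ j,
            h (uactH g (∑ l, c k j l • Additive.ofMul (uact l⁻¹ (U k j)))) := by
        intro g
        have h5 : Additive.ofMul (uact g (v₁ ^ W)) = W • (e • uactH g v₀) := by
          have h6 : Additive.ofMul (v₁ ^ W) = W • (e • v₀) := rfl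
          rw [← uactH_apply, h6, map_nsmul, map_zsmul]
        rw [h5, map_nsmul, map_zsmul, nsmul_eq_mul, zsmul_eq_mul, ← mul_assoc, map_sum, map_sum]
        congr 1
        refine Finset.sum_congr rfl fun k _ => ?_
        rw [map_sum, map_sum]
      rw [Finset.sum_congr rfl fun g _ => congrArg (fun y => cf χ g * y) (h4 g)]
      simp only [Finset.mul_sum]
      rw [Finset.sum_comm (s := Finset.univ (α := K ≃ₐ[F] K))]
      refine Finset.sum_congr rfl fun k _ => ?_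
      rw [Finset.sum_comm (s := Finset.univ (α := K ≃ₐ[F] K))]
      refine Finset.sum_congr rfl fun j _ => Finset.sum_congr rfl fun g _ => ?_
      ring
  · unfold Wedge.pair
    refine Finset.sum_eq_zero fun k _ => ?_
    rw [hxa, hb0 k χ hχ, mul_zero, zero_mul]
  · have h3 : x.reg χ D.w = (W : ℂ) * e *
        ∑ k, (∑ g, (b k g : ℂ) * cf χ g) * (ellM χ (α k) D.w).det := by
      unfold Wedge.reg
      rw [Finset.mul_sum]
      refine Finset.sum_congr rfl fun k _ => ?_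
      rw [hxa, mul_assoc]
      rfl
    rw [h3]
    by_cases hχ : D.Exact χ
    · rw [hb χ hχ]
      push_cast
      linear_combination ((W : ℂ) * N * D.value χ) * hec
    · have h4 : D.value χ = 0 := if_neg hχ
      rw [h4, mul_zero, Finset.sum_eq_zero fun k _ => by rw [hb0 k χ hχ, zero_mul], mul_zero,
        mul_zero]

/-- **Q1 up to a multiple is Stark's equality** -/
theorem pop_iff [IsGalois F K] : PopQ1 D ↔
    ∀ χ : (K ≃ₐ[F] K) →* ℂˣ, D.Exact χ → (∃ g, χ g ≠ 1) → St χ := by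
  refine ⟨fun h χ hex hχ => pop_conv D h hex hχ, fun h => pop_of_good D fun χ hex => ?_⟩
  by_cases hχ : ∀ g, χ g = 1
  · exact pop_triv D hex hχ
  push Not at hχ
  exact good_of_st D.comm D.ram hχ D.w (pop_reps D hex hχ) (h χ hex hχ)

theorem pop_red [IsGalois F K] (hU : UnramifiedCase F) (hM : MinimalCase F) : PopQ1 D :=
  (pop_iff D).2 fun χ _ _ => st_all hU hM χ

theorem pop_rel [IsGalois F K] : PopQ1 D ↔
    ∀ χ : (K ≃ₐ[F] K) →* ℂˣ, D.Exact χ → (∃ g, χ g ≠ 1) → RelG χ := by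
  rw [pop_iff]
  simp only [relG_iff]

end

end Pool.Agent.Q280.SI
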