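import Pool.Agent.Q20.SI.All2

/-!
# Stark's conjecture up to powers for abelian extensions of a real quadratic field
-/

set_option autoImplicit false
set_option linter.unusedSectionVars false

namespace Pool.Agent.Q280.SI

open NumberField IsDedekindDomain Pool.Agent.Q20.RS Pool.Agent.Q20.SI
open Pool.Agent.Q20.RS.RL (Twister Dihedral StarkEq)

/-- **The data of the question**: an ideal `𝔪 ≠ 0, (1)` of the real quadratic field `F`, an abelian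
extension `H` of `F` unramified at the primes which do not divide `𝔪`, and an embedding of `H` in `ℝ`.
(The place `∞₁` of `F` given by this embedding splits completely in `H`; the ray class field of `𝔪∞₂`,
and the subfields of it are of this kind.) -/
structure RayData (F H : Type) [Field F] [NumberField F] [Field H] [NumberField H]
    [Algebra F H] : Type where
  comm : ∀ a b : H ≃ₐ[F] H, a * b = b * a
  /-- the ideal -/
  m : Ideal (𝓞 F)
  ne_zero : m ≠ 0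
  ne_top : m ≠ ⊤
  ram : ∀ p : HeightOneSpectrum (𝓞 F), ¬ p.asIdeal ∣ m → Unrm H p
  /-- the embedding -/
  i : H →+* ℝ

section
variable {F H : Type} [Field F] [NumberField F] [Field H] [NumberField H] [Algebra F H]
  (D : RayData F H)

/-- the embedding in `ℂ` -/
def RayData.emb : H →+* ℂ := Complex.ofRealHom.comp D.i

/-- the place of `H` given by the embedding -/
noncomputable def RayData.place : InfinitePlace H := InfinitePlace.mk D.emb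

/-- the primes dividing `𝔪` -/
noncomputable def RayData.primes : Finset (HeightOneSpectrum (𝓞 F)) :=
  (Ideal.finite_factors D.ne_zero).toFinset

/-- `χ` is not trivial on the decomposition groups of the places above `∞₂` and of the primes above
`𝔪` (`L_𝔪(s, χ)` has a simple zero at `s = 0`) -/
def RayData.Exact (χ : (H ≃ₐ[F] H) →* ℂˣ) : Prop :=
  (∀ w : InfinitePlace H, w.comap (algebraMap F H) ≠ D.place.comap (algebraMap F H) →
    ∃ c : H ≃ₐ[F] H, c • w = w ∧ χ c ≠ 1) ∧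
  ∀ P : HeightOneSpectrum (𝓞 H), (P.under (𝓞 F)).asIdeal ∣ D.m →
    ∃ g : H ≃ₐ[F] H, pra g P = P ∧ χ g ≠ 1

open scoped Classical in
/-- `L_𝔪'(0, χ)`: the leading coefficient if the zero is simple, and `0` otherwise -/
noncomputable def RayData.deriv (χ : (H ≃ₐ[F] H) →* ℂˣ) : ℂ :=
  if D.Exact χ then lead D.primes χ else 0

/-- `ζ_𝔪'(0, g)`, for the partial zeta function `ζ_𝔪(s, g) = |G|⁻¹ ∑_χ χ(g)⁻¹ L_𝔪(s, χ)` of `g` -/
noncomputable def RayData.zeta (g : H ≃ₐ[F] H) : ℂ :=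
  (Fintype.card (H ≃ₐ[F] H) : ℂ)⁻¹ * ∑ χ : (H ≃ₐ[F] H) →* ℂˣ, (cf χ g)⁻¹ * D.deriv χ

/-- **Stark's units up to the power `n`**: units `ε_g` of `H`, one for each `g` in the Galois group, with
(1) `ε_g > 0`, `log ε_g = - 2 n ζ_𝔪'(0, g)`, (2) `h(ε_g) = ε_hg`, (3) `|φ(ε_g)| = 1` for all embeddings `φ` of
`H` in `ℂ` which extend the other embedding of `F` -/
def RayData.UnitsFor (n : ℕ) : Prop :=
  ∃ ε : (H ≃ₐ[F] H) → (𝓞 H)ˣ,
    (∀ g, 0 < D.i (((ε g : (𝓞 H)ˣ) : 𝓞 H) : H) ∧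
      ((Real.log (D.i (((ε g : (𝓞 H)ˣ) : 𝓞 H) : H)) : ℝ) : ℂ) = -(2 * n : ℂ) * D.zeta g) ∧
    (∀ g h, h (((ε g : (𝓞 H)ˣ) : 𝓞 H) : H) = (((ε (h * g) : (𝓞 H)ˣ) : 𝓞 H) : H)) ∧
    ∀ g, ∀ φ : H →+* ℂ, φ.comp (algebraMap F H) ≠ D.emb.comp (algebraMap F H) →
      ‖φ (((ε g : (𝓞 H)ˣ) : 𝓞 H) : H)‖ = 1

/-- **Q1 up to powers** -/
def RayData.Q1 : Prop := ∃ n : ℕ, 0 < n ∧ D.UnitsFor n

/-- **Q1 up to powers, with squares**: units `ε_g = δ_g²` of `H` with (1), (2), (3) and `h(δ_g) = δ_hg`; so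
`H(ε_g^{1/2}) = H` is abelian over `F` -/
def RayData.Q1Sq : Prop :=
  ∃ n : ℕ, 0 < n ∧ ∃ δ : (H ≃ₐ[F] H) → (𝓞 H)ˣ,
    (∀ g, 0 < D.i (((δ g ^ 2 : (𝓞 H)ˣ) : 𝓞 H) : H) ∧
      ((Real.log (D.i (((δ g ^ 2 : (𝓞 H)ˣ) : 𝓞 H) : H)) : ℝ) : ℂ) = -(2 * n : ℂ) * D.zeta g) ∧
    (∀ g h, h (((δ g : (𝓞 H)ˣ) : 𝓞 H) : H) = (((δ (h * g) : (𝓞 H)ˣ) : 𝓞 H) : H)) ∧
    ∀ g, ∀ φ : H →+* ℂ, φ.comp (algebraMap F H) ≠ D.emb.comp (algebraMap F H) →
      ‖φ (((δ g ^ 2 : (𝓞 H)ˣ) : 𝓞 H) : H)‖ = 1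

/-- the character `Ψ` of `Gal(F̄/F)` is given by `χ` and the embedding `j` of `H` in `F̄` -/
def Given (j : H →ₐ[F] AlgebraicClosure F) (Ψ : RL.Lin (base F)) (χ : (H ≃ₐ[F] H) →* ℂˣ) : Prop :=
  ∀ (y : H ≃ₐ[F] H) (g : (base F).fixingSubgroup),
    (∀ x : H, j (y x) = (g : Gal(AlgebraicClosure F/F)) (j x)) → cf χ y = Ψ.fn g

/-- **The relation for `χ`**: for the characters `Ψ` of `Gal(F̄/F)` given by `χ` and an embedding of `H` in
`F̄` there are a quadratic character `η`, trivial on the decomposition groups of the primes at which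
`Ψ` is ramified, such that `Ψη` is totally odd, and fields `F ⊆ F₁, F₂ ⊆ F₃` for which the restrictions
of `Ψ` are unramified at all finite places, `Ψ + Ind Ψ|F₃ = Ψη + Ind Ψ|F₁ + Ind Ψ|F₂`, and
`d_σ(Ψη) d_σ(Ψ|F₁) d_σ(Ψ|F₂) = d_σ(Ψ|F₃)` for all automorphisms `σ` of `ℂ` -/
def Rel (χ : (H ≃ₐ[F] H) →* ℂˣ) : Prop :=
  ∀ (j : H →ₐ[F] AlgebraicClosure F) (Ψ : RL.Lin (base F)), Given j Ψ χ →
    ∃ η : RL.Lin (base F), Twister Ψ η ∧ (Ψ.mul η).parity (-1) ∧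
      ∃ d : Dihedral Ψ η, ∀ σ : ℂ ≃+* ℂ, Balanced d σ

end

end Pool.Agent.Q280.SI
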