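import Pool.Agent.Q280.SI.Rayp

/-!
# Stark's conjecture up to powers for abelian extensions of a real quadratic field: the theorem
-/

set_option autoImplicit false
set_option linter.unusedSectionVars false

namespace Pool.Agent.Q280.SI

open NumberField IsDedekindDomain Pool.Agent.Q20.RS Pool.Agent.Q20.SI
open Pool.Agent.Q20.RS.RL (Twister Dihedral StarkEq Lin.smooth Lin.parity)
open Pool.Agent.Q20.TR (bt)

section
variable {F H : Type} [Field F] [NumberField F] [Field H] [NumberField H] [Algebra F H]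

theorem given_iff (j : H →ₐ[F] AlgebraicClosure F) (Ψ : RL.Lin (base F))
    (χ : (H ≃ₐ[F] H) →* ℂˣ) : Given j Ψ χ ↔ Infl j Ψ.fn (cf χ) := Iff.rfl

theorem rel_iff [IsGalois F H] (i : H →+* ℝ) (χ : (H ≃ₐ[F] H) →* ℂˣ) :
    Rel χ ↔ ∀ σ : ℂ ≃+* ℂ, StarkFor χ σ := by
  constructor
  · intro h σ j Ψ hΨ
    obtain ⟨η, hη, -, d, hd⟩ := h j Ψ hΨ
    exact (starkEq_iff_balanced fin_base (smooth_of_infl j hΨ) hη.smooth d σ).2 (hd σ)
  · intro h j Ψ hΨ
    have hF : FinExt (base F) := fin_base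
    have hs : Ψ.smooth := smooth_of_infl j hΨ
    obtain ⟨η, hη, ho⟩ := RL.exists_odd hF hs (s := -1) (Or.inr rfl)
    have hne : ∃ g, η.fn g ≠ 1 := by
      let e : H ≃ₐ[F] j.fieldRange := AlgEquiv.ofInjectiveField j
      obtain ⟨t, ht, htK⟩ := Pool.Agent.Q246.BI.real_cc j.fieldRange
        ⟨i.comp (e.symm : j.fieldRange →+* H)⟩
      have htF : t ∈ (base F).fixingSubgroup := mem_bt t
      have h1 := ho ⟨t, htF⟩ ht
      have h2 : Ψ.fn ⟨t, htF⟩ = 1 := by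
        rw [← hΨ 1 ⟨t, htF⟩ fun x => (htK (j x) ⟨x, rfl⟩).symm]
        unfold cf
        rw [map_one, Units.val_one]
      refine ⟨⟨t, htF⟩, fun h3 => ?_⟩
      have h4 : (Ψ.mul η).fn ⟨t, htF⟩ = Ψ.fn ⟨t, htF⟩ * η.fn ⟨t, htF⟩ := rfl
      rw [h4, h2, h3, mul_one] at h1
      norm_num at h1
    obtain ⟨d⟩ := RL.exists_dihedral hF hs hη hne
    exact ⟨η, hη, ho, d, fun σ => (starkEq_iff_balanced hF hs hη.smooth d σ).1 (h σ j Ψ hΨ)⟩

variable (D : RayData F H)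

theorem rank_main (hF : Module.finrank ℚ F = 2) [IsGalois F H] :
    (toRank D).Q1 ↔ ∀ χ : (H ≃ₐ[F] H) →* ℂˣ, D.Exact χ → Rel χ := by
  rw [one_iff_all]
  refine forall_congr' fun χ => ?_
  rw [rank_exact D hF χ, rel_iff D.i χ]
  refine imp_congr_right fun hex => ⟨fun h => h ?_, fun h _ => h⟩
  obtain ⟨P, hP⟩ := exists_prime D
  obtain ⟨g, -, hg⟩ := hex.2 P ((mem_primes D).1 hP)
  exact ⟨g, hg⟩

end

end Pool.Agent.Q280.SI
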