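import Pool.Agent.Q280.SI.Wdg

/-!
# Rubin's lattice and multiples of the leading coefficient
-/

set_option autoImplicit false
set_option linter.unusedSectionVars false

namespace Pool.Agent.Q280.SI

open NumberField IsDedekindDomain Pool.Agent.Q20.RS Pool.Agent.Q20.SI

section
variable {F K : Type} [Field F] [NumberField F] [Field K] [NumberField K] [Algebra F K]

/-- `x` lies in Rubin's lattice `ℒ^{(r)} U_{S,T}`: it is a rational combination of exterior products of
elements of `U_{S,T}`; for homomorphisms `f_i` from `K^×` to `ℂ` with integral values on `U_{S,T}` (so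
`u ↦ ∑_g f_i(g u) g⁻¹` are homomorphisms from `U_{S,T}` to the integral group ring, and all are of this
form) the value of `f_1 ∧ … ∧ f_r` at `x` is in the integral group ring; and the `χ`-parts of `x` vanish if
the order of vanishing of `L_{S,T}(χ, s)` at `s = 0` is not `r` -/
structure InLattice (D : OrderData F K) (x : Wedge F K D.r) : Prop where
  unit : ∀ k j, D.IsU ((x.u k j : Kˣ) : K)
  int : ∀ f : Fin D.r → (Additive Kˣ →+ ℂ),
    (∀ i, ∀ u : Kˣ, D.IsU (u : K) → ∃ z : ℤ, f i (Additive.ofMul u) = z) →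
    ∃ c : (K ≃ₐ[F] K) → ℤ, ∀ χ : (K ≃ₐ[F] K) →* ℂˣ, x.pair χ f = ∑ g, (c g : ℂ) * cf χ g
  part : ∀ χ : (K ≃ₐ[F] K) →* ℂˣ, ¬ D.Exact χ → ∀ f : Fin D.r → (Additive Kˣ →+ ℂ),
    x.pair χ f = 0

/-- **Q1 up to a multiple**: there are `m ≥ 1` and `x` in Rubin's lattice with regulator
`m Θ_{S,T}^{(r)}(0)` -/
def RubinQ1 (D : OrderData F K) : Prop :=
  ∃ (m : ℕ) (x : Wedge F K D.r), 0 < m ∧ InLattice D x ∧
    ∀ χ : (K ≃ₐ[F] K) →* ℂˣ, x.reg χ D.w = m * D.theta χ

end

end Pool.Agent.Q280.SI
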