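import Pool.Agent.Q26.SI.Fro
import Pool.Agent.Q123.SI.Nsp

/-!
# Primes which split completely
-/

set_option autoImplicit false
set_option linter.unusedSectionVars false

namespace Pool.Agent.Q280.SI

open NumberField IsDedekindDomain Pool.Agent.Q20.SI Pool.Agent.Q20.RS
open Pool.Agent.W401.Cheb Pool.Agent.W353.NF
open Pool.Agent.Q26.SI (FrAt gi_one isFrb_of_frAt frb_spec eq_pow)
open Pool.Agent.Q92.AR Pool.Agent.Q92.PA

/-- there is a prime with trivial decomposition group outside a given finite set -/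
theorem exists_spl {F M : Type} [Field F] [NumberField F] [Field M] [NumberField M] [Algebra F M]
    [IsGalois F M] (hab : ∀ a b : M ≃ₐ[F] M, a * b = b * a)
    (hram : {v : HeightOneSpectrum (𝓞 F) | ¬ Unrm M v}.Finite) :
    ∃ P : HeightOneSpectrum (𝓞 M), ∀ g : M ≃ₐ[F] M, pra g P = P → g = 1 := by
  classical
  let A := AlgebraicClosure F
  have hIA : IsAlgClosed A := inferInstance
  have halg : Algebra.IsAlgebraic F M := inferInstance
  let ι : M →ₐ[F] A := IsAlgClosed.lift
  let E : IntermediateField F A := ι.fieldRange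
  have hE : FiniteDimensional F E :=
    (AlgEquiv.ofInjectiveField ι).toLinearEquiv.finiteDimensional
  have hO : IsOpen {σ : GK F | ∀ x : M, σ (ι x) = ι x} := by
    have h1 : {σ : GK F | ∀ x : M, σ (ι x) = ι x} = (E.fixingSubgroup : Set (GK F)) := by
      ext σ
      constructor
      · intro h
        rw [SetLike.mem_coe, IntermediateField.mem_fixingSubgroup_iff]
        rintro _ ⟨x, rfl⟩
        exact h x
      · intro h x
        rw [SetLike.mem_coe, IntermediateField.mem_fixingSubgroup_iff] at h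
        exact h (ι x) ⟨x, rfl⟩
    rw [h1]
    exact IntermediateField.fixingSubgroup_isOpen E
  obtain ⟨σ, hσ, v, hvS, Q, hQm, hQv, hQ⟩ :=
    (Pool.Agent.Q15.GR.frob_dense {v : HeightOneSpectrum (𝓞 F) | ¬ Unrm M v}
      hram).inter_open_nonempty _ hO ⟨1, fun x => rfl⟩
  have hQp : Q.IsPrime := hQm.isPrime
  obtain ⟨P, hP1, hP2⟩ := Pool.Agent.Q92.AR.exists_pr (K := F) (F := M) hQm hQv ι
  have hv : Unrm M (P.under (𝓞 F)) := by
    rw [hP1]
    by_contra h
    exact hvS h
  have hfr : FrAt P (Ideal.absNorm (P.under (𝓞 F)).asIdeal) (1 : M ≃ₐ[F] M) := by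
    intro x
    rw [gi_one, hP1, ← hP2]
    have h2 := hQ (oi ι x)
    have h1 : σ • oi ι x = oi ι x := by
      apply RingOfIntegers.ext
      change σ (ι (x : M)) = ι (x : M)
      exact hσ _
    rw [h1] at h2
    rw [map_sub, map_pow]
    exact h2
  have h1 : frb M (P.under (𝓞 F)) = 1 := by
    obtain ⟨k, hk⟩ := isFrobenius_conj hv (show IsFrobenius (P.under (𝓞 F)) (1 : M ≃ₐ[F] M) from
      isFrb_of_frAt hfr) (show IsFrobenius (P.under (𝓞 F)) (frb M (P.under (𝓞 F))) from
      frb_spec (M := M) _)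
    rw [hk, mul_one, inv_mul_cancel]
  refine ⟨P, fun g hg => ?_⟩
  obtain ⟨n, hn⟩ := eq_pow hab hv hg
  rw [hn, h1, one_pow]

end Pool.Agent.Q280.SI
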