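import Pool.Agent.Q20.CU.Def
import Pool.Agent.Q280.SI.Pop

/-!
# Popescu's lattice and special cyclic extensions
-/

set_option autoImplicit false
set_option linter.unusedSectionVars false

namespace Pool.Agent.Q280.SI

open NumberField IsDedekindDomain Pool.Agent.Q20.RS Pool.Agent.Q20.SI
open Pool.Agent.Q20.CU (Special)

/-- **Popescu's conjecture up to a multiple for the special extensions**, `S` the archimedean places, the
ramified primes and at most one further prime, `w_1, …, w_r` above all places of `S` which split completely -/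
def SpecialPop (Q : Finset ℕ) : Prop :=
  ∀ (E L : Type) [Field E] [NumberField E] [Field L] [NumberField L] [Algebra E L]
    [IsGalois E L] (D : PopData E L), Special E L Q →
    (∃ p : HeightOneSpectrum (𝓞 E), ∀ q ∈ D.S, q = p ∨ ¬ Unrm L q) →
    (∀ v : Pl L, InPl (abv L D.S) v → (∀ g : L ≃ₐ[E] L, pact g v = v → g = 1) →
      ∃ (i : Fin (D.s + 1)) (g : L ≃ₐ[E] L), pact g (D.w i) = v) → PopQ1 D

end Pool.Agent.Q280.SI
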