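import Pool.Agent.Q20.CU.Ord
import Pool.Agent.Q280.SI.Popp
import Pool.Agent.Q280.SI.Spo
import Pool.Agent.Q280.SI.Spl

/-!
# Popescu's lattice and special cyclic extensions
-/

set_option autoImplicit false
set_option linter.unusedSectionVars false

namespace Pool.Agent.Q280.SI

open NumberField IsDedekindDomain Pool.Agent.Q20.RS Pool.Agent.Q20.SI
open Pool.Agent.Q20.CU (Special HypE)
open Pool.Agent.Q20.RS.RL (StarkEq)

section
variable {E M : Type} [Field E] [NumberField E] [Field M] [NumberField M] [Algebra E M]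

/-- Popescu's data from Rubin's -/
theorem pop_of_order (D : OrderData E M) (hr : 0 < D.r) : ∃ D' : PopData E M, D'.S = D.S ∧
    (∀ v : Pl M, InPl (abv M D'.S) v → (∀ g : M ≃ₐ[E] M, pact g v = v → g = 1) →
      ∃ (i : Fin (D'.s + 1)) (g : M ≃ₐ[E] M), pact g (D'.w i) = v) ∧
    ∀ χ : (M ≃ₐ[E] M) →* ℂˣ, (∃ g, χ g ≠ 1) → D.Exact χ → D'.Exact χ := by
  obtain ⟨comm, S, ram, r, w, mem, split, dist, all, more, T, disj, tors⟩ := D
  obtain ⟨s, rfl⟩ : ∃ s, r = s + 1 := ⟨r - 1, by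
    have : 0 < r := hr
    omega⟩
  refine ⟨⟨comm, S, ram, s, w, mem, split, dist, ?_⟩, rfl, all, ?_⟩
  · obtain ⟨v, hv, g, hg, hg1⟩ := more
    refine ⟨v, hv, fun i h hh => hg1 ?_⟩
    have h1 := split i (h⁻¹ * g * h) (by
      rw [pact_mul, pact_mul, hh, hg, ← hh, ← pact_mul, inv_mul_cancel, pact_one])
    have h2 : g = h * 1 * h⁻¹ := by
      rw [← h1]
      group
    rw [h2, mul_one, mul_inv_cancel]
  · rintro χ hχ (h | h)
    · exact Or.inl h
    · obtain ⟨g, hg⟩ := hχ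
      exact absurd (h.1 g) hg

end

/-- Stark's equality for the special extensions -/
theorem hypE_of_pop {Q : Finset ℕ} (hO : SpecialPop Q) : HypE Q := by
  classical
  intro K E M _ _ _ _ _ _ _ _ _ _ _ E' j χ ψ hm hinf hinj hnt hsp σ
  have hfin : {v : HeightOneSpectrum (𝓞 E) | ¬ Unrm M v}.Finite :=
    Pool.Agent.Q92.AR.ramified_finite
  have hab : ∀ a b : M ≃ₐ[E] M, a * b = b * a := fun a b => hinj (by
    rw [map_mul, map_mul, mul_comm])
  have hT : ∀ v : Pl M, Triv χ v ↔ ∀ g : M ≃ₐ[E] M, pact g v = v → g = 1 := by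
    intro v
    constructor
    · intro h g hg
      apply hinj
      rw [h g hg, map_one]
    · intro h g hg
      rw [h g hg, map_one]
  obtain ⟨y, hy⟩ := hnt
  -- the set `S`
  obtain ⟨p, ⟨v₁, hv₁, hs₁⟩, v₂, hv₂, g₂, hg₂, hg₂'⟩ : ∃ p : HeightOneSpectrum (𝓞 E),
      (∃ v : Pl M, InPl (abv M (insert p hfin.toFinset)) v ∧
        ∀ g : M ≃ₐ[E] M, pact g v = v → g = 1) ∧
      ∃ v : Pl M, InPl (abv M (insert p hfin.toFinset)) v ∧
        ∃ g : M ≃ₐ[E] M, pact g v = v ∧ g ≠ 1 := by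
    by_cases hsp : ∃ v : InfinitePlace M, ∀ g : M ≃ₐ[E] M, g • v = v → g = 1
    · obtain ⟨v, hv⟩ := hsp
      obtain ⟨P, -, hP⟩ := Pool.Agent.Q123.SI.Nsp.nsp E M y ∅
      refine ⟨P.under (𝓞 E), ⟨.inr v, trivial, fun g hg => hv g (Sum.inr_injective hg)⟩, .inl P,
        mem_abv.2 (Finset.mem_insert_self _ _), y, congrArg Sum.inl hP, fun h => hy (by
          rw [h, map_one])⟩
    · push Not at hsp
      obtain ⟨P, hP⟩ := exists_spl hab hfin
      obtain ⟨v⟩ : Nonempty (InfinitePlace M) := inferInstance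
      obtain ⟨g, hg, hg1⟩ := hsp v
      exact ⟨P.under (𝓞 E), ⟨.inl P, mem_abv.2 (Finset.mem_insert_self _ _),
        fun g hg => hP g (Sum.inl_injective hg)⟩, .inr v, trivial, g, congrArg Sum.inr hg, hg1⟩
  obtain ⟨D, hDS, hex⟩ := exists_data Pool.Agent.Q182.SI.auxp (insert p hfin.toFinset)
    (fun p hp => Finset.mem_insert_of_mem (hfin.mem_toFinset.2 hp)) hinj
    ⟨v₂, hv₂, g₂, hg₂, hg₂'⟩
  have hr : 0 < D.r := by
    obtain ⟨i, -⟩ := D.all v₁ (by rwa [hDS]) hs₁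
    exact i.pos
  obtain ⟨D', hDS', hall, hex'⟩ := pop_of_order D hr
  have hP := hO E M D' hsp ⟨p, fun q hq => by
    rw [hDS', hDS] at hq
    rcases Finset.mem_insert.1 hq with h | h
    · exact Or.inl h
    · exact Or.inr (hfin.mem_toFinset.1 h)⟩ hall
  have hQ : D.Q1 := (order_iff D).2 fun χ' hex'' hχ' σ' j' Ψ hΨ =>
    (pop_iff D').1 hP χ' (hex' χ' hχ' hex'') hχ' j' Ψ hΨ σ'
  exact starkEq_of_level (stark_of_q1 D cmpT Pool.Agent.Q176.SI.reg orb exi
    Pool.Agent.Q277.SI.ram hQ hex ⟨y, hy⟩ j hm ψ.fn hinf σ)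

/-- **Special extensions decide** -/
theorem special_pop {Q : Finset ℕ} (hQ : ∀ q ∈ Q, q.Prime) :
    (∀ (F K : Type) [Field F] [NumberField F] [Field K] [NumberField K] [Algebra F K]
      [IsGalois F K] (D : PopData F K), PopQ1 D) ↔ SpecialPop Q := by
  refine ⟨fun h E L _ _ _ _ _ _ D _ _ _ => h E L D, fun h F K _ _ _ _ _ _ D => ?_⟩
  refine (pop_iff D).2 fun χ _ _ j Ψ hΨ σ => ?_
  exact Pool.Agent.Q20.CU.linear_of_hyp hQ (hypE_of_pop h) F Ψ (smooth_of_infl j hΨ) σ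

end Pool.Agent.Q280.SI
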