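import Pool.Agent.Q20.CU.Def
import Pool.Agent.Q280.SI.Rub

/-!
# Rubin's lattice and special cyclic extensions
-/

set_option autoImplicit false
set_option linter.unusedSectionVars false

namespace Pool.Agent.Q280.SI

open NumberField IsDedekindDomain Pool.Agent.Q20.RS Pool.Agent.Q20.SI
open Pool.Agent.Q20.CU (Special)

/-- the primes in `S` are ramified in `L`, up to at most one -/
def OneMore {E : Type} (L : Type) [Field E] [NumberField E] [Field L] [NumberField L] [Algebra E L]
    (S : Finset (HeightOneSpectrum (𝓞 E))) : Prop :=
  ∃ p : HeightOneSpectrum (𝓞 E), ∀ q ∈ S, q = p ∨ ¬ Unrm L q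

/-- **Rubin's conjecture up to a multiple for the special extensions**, `S` the archimedean places, the
ramified primes and at most one further prime -/
def SpecialRubin (Q : Finset ℕ) : Prop :=
  ∀ (E L : Type) [Field E] [NumberField E] [Field L] [NumberField L] [Algebra E L]
    [IsGalois E L] (D : OrderData E L), Special E L Q → OneMore L D.S → RubinQ1 D

end Pool.Agent.Q280.SI
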