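import Pool.Agent.Q20.CU.Ord
import Pool.Agent.Q280.SI.Rubp
import Pool.Agent.Q280.SI.Spr

/-!
# Rubin's lattice and special cyclic extensions
-/

set_option autoImplicit false
set_option linter.unusedSectionVars false

namespace Pool.Agent.Q280.SI

open NumberField IsDedekindDomain Pool.Agent.Q20.RS Pool.Agent.Q20.SI
open Pool.Agent.Q20.CU (Special)

section
variable {F K : Type} [Field F] [NumberField F] [Field K] [NumberField K] [Algebra F K]
  (D : OrderData F K)

/-- Rubin's lattice does not matter up to multiples -/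
theorem rubin_q1 [IsGalois F K] : RubinQ1 D ↔ D.Q1 := by
  rw [rubin_iff, order_iff]
  exact ⟨fun h χ hex hχ σ j Ψ hΨ => h χ hex hχ j Ψ hΨ σ,
    fun h χ hex hχ j Ψ hΨ σ => h χ hex hχ σ j Ψ hΨ⟩

end

/-- **Special extensions decide** -/
theorem special_rubin {Q : Finset ℕ} (hQ : ∀ q ∈ Q, q.Prime) :
    (∀ (F K : Type) [Field F] [NumberField F] [Field K] [NumberField K] [Algebra F K]
      [IsGalois F K] (D : OrderData F K), RubinQ1 D) ↔ SpecialRubin Q := by
  refine ⟨fun h E L _ _ _ _ _ _ D _ _ => h E L D, fun h F K _ _ _ _ _ _ D => ?_⟩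
  refine (rubin_q1 D).2 (Pool.Agent.Q20.CU.ord_main hQ ?_ F K D)
  intro E L _ _ _ _ _ _ D hD hp
  exact (rubin_q1 D).1 (h E L D hD hp)

end Pool.Agent.Q280.SI
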